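import Pool.Agent.J6H2.TW.VT

/-!
# Bounds for the Selmer groups over the `2`-extensions unramified outside `2`
-/

set_option autoImplicit false
set_option linter.unusedSectionVars false

namespace Pool.Agent.J6H2.TW

open Pool.Agent.R384
open Pool.Agent.Y715.Red Pool.Agent.Y715.Nr Pool.Agent.W237.RK
open Pool.Agent.Y715.Gi (QB KK GK i₀_mem gk_fix)
open Pool.Agent.Y715.Df (Cmp exists_cmp)

open scoped Classical

variable {i₀ : QB} (hi : i₀ ^ 2 = i₀ - 2)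

include hi in
/-- quadratic characters of the extensions which are unramified outside `2` and trivial on a
decomposition group above `2` are trivial -/
theorem char_zero {H N : Subgroup (GK i₀)} (hNH : N ≤ H) (hN : N.Normal)
    (hidx : ∃ a : ℕ, N.index = 2 ^ a) (hNo : IsOpen (N : Set (GK i₀)))
    (hur : ∀ (p : ℕ) [Fact p.Prime] (ι : QB →ₐ[ℚ] PadicAlgCl p), p ≠ 2 →
      ∀ σ ∈ (II ι : Set (GK i₀)), σ ∈ N)
    {h : H → ZMod 2} (hlc : IsLocallyConstant h) (hadd : ∀ σ τ, h (σ * τ) = h σ + h τ)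
    (hodd : ∀ (p : ℕ) [Fact p.Prime] (ι : QB →ₐ[ℚ] PadicAlgCl p), p ≠ 2 →
      ∀ σ : H, (σ : GK i₀) ∈ (II ι : Set (GK i₀)) → h σ = 0)
    (ι₀ : QB →ₐ[ℚ] PadicAlgCl 2)
    (h2 : ∀ σ : H, (σ : GK i₀) ∈ (DD ι₀ : Set (GK i₀)) → h σ = 0) : ∀ σ, h σ = 0 := by
  obtain ⟨a, ha⟩ := hidx
  have hNf : N.FiniteIndex := ⟨by rw [ha]; positivity⟩
  have h1 : h 1 = 0 := by
    have := hadd 1 1
    rw [mul_one] at this
    exact left_eq_add.1 this
  have hinv : ∀ σ, h σ⁻¹ = h σ := by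
    intro σ
    have h3 := hadd σ σ⁻¹
    rw [mul_inv_cancel, h1] at h3
    have h4 : ∀ x y : ZMod 2, 0 = x + y → y = x := by decide
    exact h4 _ _ h3
  have hsq : ∀ σ, h (σ * σ) = 0 := by
    intro σ
    rw [hadd]
    have h4 : ∀ x : ZMod 2, x + x = 0 := by decide
    exact h4 _
  -- the kernel in `N`
  let N₁ : Subgroup (GK i₀) :=
    { carrier := {g | ∃ hg : g ∈ N, h ⟨g, hNH hg⟩ = 0}
      mul_mem' := by
        rintro x y ⟨hx, hx'⟩ ⟨hy, hy'⟩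
        refine ⟨N.mul_mem hx hy, ?_⟩
        have := hadd ⟨x, hNH hx⟩ ⟨y, hNH hy⟩
        rw [hx', hy', add_zero] at this
        exact this
      one_mem' := ⟨N.one_mem, h1⟩
      inv_mem' := by
        rintro x ⟨hx, hx'⟩
        refine ⟨N.inv_mem hx, ?_⟩
        have := hinv ⟨x, hNH hx⟩
        rw [hx'] at this
        exact this }
  have hN₁ : ∀ g, g ∈ N₁ ↔ ∃ hg : g ∈ N, h ⟨g, hNH hg⟩ = 0 := fun g => Iff.rfl
  have hN₁o : IsOpen (N₁ : Set (GK i₀)) := by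
    have hHo : IsOpen (H : Set (GK i₀)) := Subgroup.isOpen_mono hNH hNo
    have h3 : IsOpen (h ⁻¹' {0}) := hlc.isOpen_fiber 0
    have h4 : IsOpen (Subtype.val '' (h ⁻¹' {0}) : Set (GK i₀)) :=
      (hHo.isOpenMap_subtype_val) _ h3
    have e : (N₁ : Set (GK i₀)) = (N : Set (GK i₀)) ∩ (Subtype.val '' (h ⁻¹' {0})) := by
      ext g
      constructor
      · rintro ⟨hg, hg'⟩
        exact ⟨hg, ⟨g, hNH hg⟩, hg', rfl⟩
      · rintro ⟨hg, ⟨g', hg'⟩, h5, rfl⟩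
        exact ⟨hg, h5⟩
    rw [e]
    exact hNo.inter h4
  have hN₁q : Finite (GK i₀ ⧸ N₁) := Subgroup.quotient_finite_of_isOpen N₁ hN₁o
  have hN₁f : N₁.FiniteIndex := Subgroup.finiteIndex_of_finite_quotient
  set N₂ := N₁.normalCore with hN₂
  have hN₂f : N₂.FiniteIndex := inferInstance
  have hN₂o : IsOpen (N₂ : Set (GK i₀)) :=
    Subgroup.isOpen_of_isClosed_of_finiteIndex _
      (N₁.normalCore_isClosed (Subgroup.isClosed_of_isOpen N₁ hN₁o))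
  have hmem : ∀ g, g ∈ N₂ ↔ ∀ x : GK i₀, x * g * x⁻¹ ∈ N₁ := fun g => Iff.rfl
  -- the index is a power of two
  have hP : IsPGroup 2 (GK i₀ ⧸ N₂) := by
    rintro ⟨g⟩
    refine ⟨a + 1, ?_⟩
    show ((g : GK i₀) : GK i₀ ⧸ N₂) ^ 2 ^ (a + 1) = 1
    rw [← QuotientGroup.mk_pow, QuotientGroup.eq_one_iff, hmem]
    intro x
    have h3 : g ^ 2 ^ a ∈ N := by
      rw [← ha]
      exact Subgroup.pow_index_mem N g
    have h4 : x * g ^ 2 ^ a * x⁻¹ ∈ N := hN.conj_mem _ h3 x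
    have h5 := hsq ⟨_, hNH h4⟩
    have e : x * g ^ 2 ^ (a + 1) * x⁻¹ = (x * g ^ 2 ^ a * x⁻¹) * (x * g ^ 2 ^ a * x⁻¹) := by
      rw [pow_succ, mul_comm (2 ^ a) 2, two_mul, pow_add]
      group
    rw [e]
    exact ⟨N.mul_mem h4 h4, h5⟩
  have hidx₂ : ∃ b : ℕ, N₂.index = 2 ^ b := by
    obtain ⟨b, hb⟩ := hP.exists_card_eq
    exact ⟨b, hb⟩
  have hur₂ : ∀ (p : ℕ) [Fact p.Prime] (ι : QB →ₐ[ℚ] PadicAlgCl p), p ≠ 2 →
      ∀ σ ∈ (II ι : Set (GK i₀)), σ ∈ N₂ := by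
    intro p _ ι hp σ hσ
    rw [hmem]
    intro x
    have h3 := II_conj hσ x⁻¹
    rw [inv_inv] at h3
    have h4 := hur p _ hp _ h3
    exact ⟨h4, hodd p _ hp ⟨_, hNH h4⟩ h3⟩
  intro σ
  obtain ⟨δ, hδ, hδσ⟩ := trans hi (Subgroup.normalCore_normal N₁) hidx₂ hN₂o hur₂ ι₀ (σ : GK i₀)
  obtain ⟨h3, h4⟩ := Subgroup.normalCore_le N₁ hδσ
  have hδH : δ ∈ H := by
    have e : δ = (σ : GK i₀) * (δ⁻¹ * σ)⁻¹ := by group
    rw [e]
    exact H.mul_mem σ.2 (H.inv_mem (hNH h3))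
  have h5 := hadd ⟨δ, hδH⟩ ⟨δ⁻¹ * σ, hNH h3⟩
  have e : (⟨δ, hδH⟩ : H) * ⟨δ⁻¹ * σ, hNH h3⟩ = σ := by
    apply Subtype.ext
    show δ * (δ⁻¹ * σ) = σ
    group
  rw [e, h2 ⟨δ, hδH⟩ hδ, h4, add_zero] at h5
  exact h5

/-- the vectors fixed by a set -/
def fixd {B : Type} [Fintype B] {Γ : Type} [Group Γ] (R : Representation ℚ_[2] Γ (B → ℚ_[2]))
    (D : Set Γ) : Submodule ℚ_[2] (B → ℚ_[2]) where
  carrier := {v | ∀ σ ∈ D, R σ v = v}
  zero_mem' := fun σ _ => map_zero _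
  add_mem' := fun {x y} hx hy σ hσ => by rw [map_add, hx σ hσ, hy σ hσ]
  smul_mem' := fun c x hx σ hσ => by rw [map_smul, hx σ hσ]

section bound

variable {B : Type} [Fintype B] {H N : Subgroup (GK i₀)}
variable {R : Representation ℚ_[2] H (B → ℚ_[2])} {κ : B → (QB →ₐ[ℚ] PadicAlgCl 2)}

include hi in
/-- a cocycle which is zero on the decomposition groups above `2` in the right coordinates, and zero
on the inertia groups, is zero -/
theorem coc_zero (hNH : N ≤ H) (hN : N.Normal)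
    (hidx : ∃ a : ℕ, N.index = 2 ^ a) (hNo : IsOpen (N : Set (GK i₀)))
    (hur : ∀ (p : ℕ) [Fact p.Prime] (ι : QB →ₐ[ℚ] PadicAlgCl p), p ≠ 2 →
      ∀ σ ∈ (II ι : Set (GK i₀)), σ ∈ N)
    (hR : ∀ σ v, ‖R σ v - v‖ ≤ ‖v‖ / 2)
    {E : H → B → ℚ_[2]} (hEc : Continuous E) (hEm : ∀ σ τ, E (σ * τ) = E σ + R σ (E τ))
    {r : ℕ} {I : Fin r → Set H} (hI : ∀ k, ∀ σ ∈ I k, E σ = 0)
    (hodd : ∀ (p : ℕ) [Fact p.Prime] (ι : QB →ₐ[ℚ] PadicAlgCl p), p ≠ 2 →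
      (∀ σ : H, (σ : GK i₀) ∈ (II ι : Set (GK i₀)) → E σ = 0) ∨
      ∃ k, ∃ g : H, ∀ σ : H, (σ : GK i₀) ∈ (II ι : Set (GK i₀)) → g⁻¹ * σ * g ∈ I k)
    (h2 : ∀ b, ∀ σ : H, (σ : GK i₀) ∈ (DD (κ b) : Set (GK i₀)) → E σ b = 0) : ∀ σ, E σ = 0 := by
  by_contra hcon
  push Not at hcon
  obtain ⟨σ₀, hσ₀⟩ := hcon
  have hHo : IsOpen (H : Set (GK i₀)) := Subgroup.isOpen_mono hNH hNo
  have hHc : CompactSpace H :=
    isCompact_iff_compactSpace.1 (Subgroup.isClosed_of_isOpen H hHo).isCompact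
  obtain ⟨σ₁, -, hmax⟩ := isCompact_univ.exists_isMaxOn (Set.univ_nonempty (α := H))
    (continuous_norm.comp hEc).continuousOn
  have hmax' : ∀ σ, ‖E σ‖ ≤ ‖E σ₁‖ := fun σ => hmax (Set.mem_univ σ)
  have hpos : 0 < ‖E σ₁‖ := (norm_pos_iff.2 hσ₀).trans_le (hmax' σ₀)
  obtain ⟨b, hb⟩ : ∃ b, ‖E σ₁ b‖ = ‖E σ₁‖ := by
    by_contra hcon
    push Not at hcon
    have h2 : ‖E σ₁‖ < ‖E σ₁‖ := by
      rw [pi_norm_lt_iff hpos]
      intro i
      exact lt_of_le_of_ne (norm_le_pi_norm _ i) (hcon i)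
    exact lt_irrefl _ h2
  set t : ℚ_[2] := E σ₁ b with ht
  have ht0 : t ≠ 0 := by
    intro h0
    rw [← hb, h0, norm_zero] at hpos
    exact lt_irrefl _ hpos
  set E' : H → B → ℚ_[2] := fun σ => t⁻¹ • E σ with hE'
  have hE'1 : ∀ σ, ‖E' σ‖ ≤ 1 := by
    intro σ
    simp only [hE']
    rw [norm_smul, norm_inv, hb, inv_mul_le_iff₀ hpos, mul_one]
    exact hmax' σ
  have hE'm : ∀ σ τ, E' (σ * τ) = E' σ + R σ (E' τ) := by
    intro σ τ
    simp only [hE']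
    rw [hEm, smul_add, map_smul]
  have hE'c : Continuous E' := hEc.const_smul t⁻¹
  have hE'b : ∀ σ, ‖E' σ b‖ ≤ 1 := fun σ => (norm_le_pi_norm _ b).trans (hE'1 σ)
  set h : H → ZMod 2 := fun σ => m1 (E' σ b) with hh
  have hlc : IsLocallyConstant h := by
    rw [IsLocallyConstant.iff_exists_open]
    intro σ
    refine ⟨E' ⁻¹' Metric.ball (E' σ) 1, Metric.isOpen_ball.preimage hE'c,
      Metric.mem_ball_self one_pos, fun τ hτ => ?_⟩
    apply m1_congr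
    have h2 : ‖E' τ - E' σ‖ < 1 := by
      rw [← dist_eq_norm]
      exact hτ
    exact (norm_le_pi_norm (E' τ - E' σ) b).trans_lt h2
  have hadd : ∀ σ τ, h (σ * τ) = h σ + h τ := by
    intro σ τ
    show m1 (E' (σ * τ) b) = m1 (E' σ b) + m1 (E' τ b)
    rw [← m1_add (hE'b _) (hE'b _)]
    apply m1_congr
    have h1 := hR σ (E' τ)
    have h2 := hE'1 τ
    have h3 := norm_le_pi_norm (R σ (E' τ) - E' τ) b
    rw [hE'm, Pi.add_apply]
    have e : E' σ b + R σ (E' τ) b - (E' σ b + E' τ b) = (R σ (E' τ) - E' τ) b := by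
      rw [Pi.sub_apply]
      ring
    rw [e]
    linarith
  have hz : ∀ σ, E σ = 0 → h σ = 0 := by
    intro σ h0
    show m1 (t⁻¹ * E σ b) = 0
    rw [h0, Pi.zero_apply, mul_zero, m1_zero, norm_zero]
    exact one_pos
  have hconj : ∀ g σ : H, h (g⁻¹ * σ * g) = h σ := by
    intro g σ
    rw [hadd, hadd]
    have h5 : h g⁻¹ + h g = 0 := by
      rw [← hadd, inv_mul_cancel]
      have := hadd 1 1
      rw [mul_one] at this
      exact left_eq_add.1 this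
    calc h g⁻¹ + h σ + h g = (h g⁻¹ + h g) + h σ := by ring
      _ = h σ := by rw [h5, zero_add]
  have hall := char_zero hi hNH hN hidx hNo hur hlc hadd (by
    intro p _ ι hp σ hσ
    rcases hodd p ι hp with h6 | ⟨k, g, h6⟩
    · exact hz σ (h6 σ hσ)
    · rw [← hconj g σ]
      exact hz _ (hI k _ (h6 σ hσ))) (κ b) (by
    intro σ hσ
    show m1 (t⁻¹ * E σ b) = 0
    rw [h2 b σ hσ, mul_zero, m1_zero, norm_zero]
    exact one_pos)
  have h7 := hall σ₁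
  have h8 : h σ₁ = 1 := by
    show m1 (t⁻¹ * E σ₁ b) = 1
    rw [← ht, inv_mul_cancel₀ ht0]
    unfold m1
    rw [norm_one, if_neg (lt_irrefl _)]
  rw [h8] at h7
  exact one_ne_zero h7

include hi in
/-- **The bound for the Selmer groups.** -/
theorem bound (hNH : N ≤ H) (hN : N.Normal)
    (hidx : ∃ a : ℕ, N.index = 2 ^ a) (hNo : IsOpen (N : Set (GK i₀)))
    (hur : ∀ (p : ℕ) [Fact p.Prime] (ι : QB →ₐ[ℚ] PadicAlgCl p), p ≠ 2 →
      ∀ σ ∈ (II ι : Set (GK i₀)), σ ∈ N)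
    (hR : ∀ σ v, ‖R σ v - v‖ ≤ ‖v‖ / 2) (hRc : ∀ v, Continuous fun σ => R σ v)
    (hst : ∀ b, ∀ σ : H, (σ : GK i₀) ∈ (DD (κ b) : Set (GK i₀)) → ∀ v : B → ℚ_[2],
      (∀ b', κ b' = κ b → v b' = 0) → ∀ b', κ b' = κ b → R σ v b' = 0)
    {r m : ℕ} {I : Fin r → Set H}
    (hI : ∀ (p : ℕ) [Fact p.Prime] (ι : QB →ₐ[ℚ] PadicAlgCl p), p ≠ 2 →
      (∀ σ : H, (σ : GK i₀) ∈ (II ι : Set (GK i₀)) → ∀ v, R σ v = v) ∨
      ∃ k, ∃ g : H, ∀ σ : H, (σ : GK i₀) ∈ (II ι : Set (GK i₀)) → g⁻¹ * σ * g ∈ I k)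
    {c : Fin m → H → B → ℚ_[2]} (hcc : ∀ j, Continuous (c j))
    (hcm : ∀ j σ τ, c j (σ * τ) = c j σ + R σ (c j τ))
    (hodd : ∀ j, ∀ (p : ℕ) [Fact p.Prime] (ι : QB →ₐ[ℚ] PadicAlgCl p), p ≠ 2 →
      ∃ y, ∀ σ : H, (σ : GK i₀) ∈ (II ι : Set (GK i₀)) → c j σ = R σ y - y)
    (hoddI : ∀ j k, ∃ y, ∀ σ ∈ I k, c j σ = R σ y - y)
    (h2 : ∀ j b, ∃ y : B → ℚ_[2], ∀ σ : H, (σ : GK i₀) ∈ (DD (κ b) : Set (GK i₀)) →
      ∀ b', κ b' = κ b → c j σ b' = (R σ y - y) b')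
    (hm : ∑ k, Module.finrank ℚ_[2] ((B → ℚ_[2]) ⧸ fixd R (I k)) < m) :
    ∃ a : Fin m → ℚ_[2], a ≠ 0 ∧ ∃ y, ∀ σ, ∑ j, a j • c j σ = R σ y - y := by
  -- the normalization at the places above `2`
  have hY : ∀ j, ∃ y : B → ℚ_[2], ∀ b, ∀ σ : H, (σ : GK i₀) ∈ (DD (κ b) : Set (GK i₀)) →
      c j σ b = (R σ y - y) b := by
    intro j
    choose y hy using h2 j
    have hy' : ∀ ι : QB →ₐ[ℚ] PadicAlgCl 2, ∃ y' : B → ℚ_[2], ∀ b, κ b = ι →
        ∀ σ : H, (σ : GK i₀) ∈ (DD ι : Set (GK i₀)) → c j σ b = (R σ y' - y') b := by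
      intro ι
      by_cases h : ∃ b, κ b = ι
      · obtain ⟨b, rfl⟩ := h
        exact ⟨y b, fun b' hb' σ hσ => hy b σ hσ b' hb'⟩
      · exact ⟨0, fun b hb => absurd ⟨b, hb⟩ h⟩
    choose y' hy' using hy'
    refine ⟨fun b => y' (κ b) b, fun b σ hσ => ?_⟩
    rw [hy' (κ b) b rfl σ hσ]
    have h1 := hst b σ hσ ((fun b => y' (κ b) b) - y' (κ b)) (fun b' hb' => by
      show y' (κ b') b' - y' (κ b) b' = 0
      rw [hb', sub_self]) b rfl
    rw [map_sub, Pi.sub_apply, sub_eq_zero] at h1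
    rw [Pi.sub_apply, Pi.sub_apply, h1]
  choose y hy using hY
  set E : Fin m → H → B → ℚ_[2] := fun j σ => c j σ - (R σ (y j) - y j) with hE
  have hEm : ∀ j σ τ, E j (σ * τ) = E j σ + R σ (E j τ) := by
    intro j σ τ
    simp only [hE]
    have e : R (σ * τ) (y j) = R σ (R τ (y j)) := by rw [map_mul]; rfl
    rw [hcm, e, map_sub, map_sub]
    abel
  have hEc : ∀ j, Continuous (E j) := fun j => (hcc j).sub ((hRc (y j)).sub continuous_const)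
  have hE2 : ∀ j b, ∀ σ : H, (σ : GK i₀) ∈ (DD (κ b) : Set (GK i₀)) → E j σ b = 0 := by
    intro j b σ hσ
    simp only [hE]
    rw [Pi.sub_apply, hy j b σ hσ, sub_self]
  have hEI : ∀ j k, ∃ z, ∀ σ ∈ I k, E j σ = R σ z - z := by
    intro j k
    obtain ⟨z, hz⟩ := hoddI j k
    refine ⟨z - y j, fun σ hσ => ?_⟩
    simp only [hE]
    rw [hz σ hσ, map_sub]
    abel
  choose z hz using hEI
  -- the linear map
  let f : (Fin m → ℚ_[2]) →ₗ[ℚ_[2]] (∀ k : Fin r, (B → ℚ_[2]) ⧸ fixd R (I k)) :=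
    LinearMap.pi fun k => (fixd R (I k)).mkQ.comp (Fintype.linearCombination ℚ_[2] fun j => z j k)
  have hker : LinearMap.ker f ≠ ⊥ := by
    apply LinearMap.ker_ne_bot_of_finrank_lt
    rw [Module.finrank_pi_fintype, Module.finrank_fin_fun]
    exact hm
  obtain ⟨a, ha, ha0⟩ := (Submodule.ne_bot_iff _).1 hker
  refine ⟨a, ha0, ∑ j, a j • y j, ?_⟩
  have hak : ∀ k, ∑ j, a j • z j k ∈ fixd R (I k) := by
    intro k
    have h3 := congrFun (LinearMap.mem_ker.1 ha) k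
    have h4 : (fixd R (I k)).mkQ (∑ j, a j • z j k) = 0 := h3
    rwa [Submodule.mkQ_apply, Submodule.Quotient.mk_eq_zero] at h4
  set F : H → B → ℚ_[2] := fun σ => ∑ j, a j • E j σ with hF
  have hF0 : ∀ σ, F σ = 0 := by
    refine coc_zero hi hNH hN hidx hNo hur hR (κ := κ) (I := I) ?_ ?_ ?_ ?_ ?_
    · exact continuous_finsetSum _ fun j _ => (hEc j).const_smul (a j)
    · intro σ τ
      simp only [hF, hEm, smul_add, Finset.sum_add_distrib, map_sum, map_smul]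
    · intro k σ hσ
      have h5 := hak k σ hσ
      simp only [hF]
      have e : ∀ j, a j • E j σ = R σ (a j • z j k) - a j • z j k := by
        intro j
        rw [hz j k σ hσ, smul_sub, map_smul]
      rw [Finset.sum_congr rfl fun j _ => e j, Finset.sum_sub_distrib, ← map_sum, h5, sub_self]
    · intro p _ ι hp
      rcases hI p ι hp with h6 | h6
      · left
        intro σ hσ
        have e : ∀ j, E j σ = 0 := by
          intro j
          obtain ⟨y', hy'⟩ := hodd j p ι hp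
          simp only [hE]
          rw [hy' σ hσ, h6 σ hσ, h6 σ hσ, sub_self, sub_self, sub_self]
        simp only [hF, e, smul_zero, Finset.sum_const_zero]
      · exact Or.inr h6
    · intro b σ hσ
      simp only [hF]
      rw [Finset.sum_apply]
      exact Finset.sum_eq_zero fun j _ => by
        rw [Pi.smul_apply, hE2 j b σ hσ, smul_zero]
  intro σ
  have h7 := hF0 σ
  simp only [hF, hE, smul_sub, Finset.sum_sub_distrib] at h7
  rw [map_sum]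
  simp only [map_smul]
  exact sub_eq_zero.1 h7

end bound

end Pool.Agent.J6H2.TW
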