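import Pool.Agent.R384.Z.Dev

/-!
# Cocycles with values in modules over finite `2`-groups, with local conditions
-/

set_option autoImplicit false

namespace Pool.Agent.J6H2.TW

open Pool.Agent.Z384

/-- **Dévissage with local conditions.** `C h` is a condition on functions `h : G → ZMod 2`; it holds for all
functions `l ∘ b` with a linear form `l` on a stable subspace which contains the values of `b`. -/
theorem dev2 {G : Type*} [Group G] [TopologicalSpace G] {M : Type*} [AddCommGroup M]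
    [Module (ZMod 2) M] [Finite M] (P : G →* (M ≃ₗ[ZMod 2] M))
    (hP : ∀ σ, ∃ k, (P σ) ^ 2 ^ k = 1) (C : (G → ZMod 2) → Prop)
    (hyp : ∀ h : G → ZMod 2, IsLocallyConstant h → (∀ σ τ, h (σ * τ) = h σ + h τ) →
      C h → ∀ σ, h σ = 0)
    (b : G → M) (hb : IsLocallyConstant b) (hcoc : ∀ σ τ, b (σ * τ) = b σ + P σ (b τ))
    (hC : ∀ (W : Submodule (ZMod 2) M) (hW : ∀ σ, b σ ∈ W) (l : W →ₗ[ZMod 2] ZMod 2),
      C fun σ => l ⟨b σ, hW σ⟩) : ∀ σ, b σ = 0 := by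
  classical
  have hQ : IsPGroup 2 P.range := by
    rintro ⟨g, σ, rfl⟩
    obtain ⟨k, hk⟩ := hP σ
    exact ⟨k, Subtype.ext hk⟩
  let 𝒲 : Set (Submodule (ZMod 2) M) := {W | (∀ σ, ∀ w ∈ W, P σ w ∈ W) ∧ ∀ σ, b σ ∈ W}
  have hfin : Finite (Submodule (ZMod 2) M) :=
    Finite.of_injective (fun W : Submodule (ZMod 2) M => (W : Set M)) SetLike.coe_injective
  have hne : 𝒲.Nonempty := ⟨⊤, fun _ _ _ => trivial, fun _ => trivial⟩
  obtain ⟨W, hW, hmin⟩ := (Set.toFinite 𝒲).exists_minimal hne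
  have hbot : W = ⊥ := by
    by_contra hcon
    obtain ⟨l, hl0, hl⟩ := exists_functional P.range W (by
      rintro g ⟨σ, rfl⟩ w hw
      exact hW.1 σ w hw) hQ hcon
    let F : M → ZMod 2 := fun m => if h : m ∈ W then l ⟨m, h⟩ else 0
    have hF : ∀ σ, F (b σ) = l ⟨b σ, hW.2 σ⟩ := fun σ => dif_pos (hW.2 σ)
    have h0 := hyp (F ∘ b) (hb.comp F) (by
      intro σ τ
      show F (b (σ * τ)) = F (b σ) + F (b τ)
      rw [hF, hF, hF]
      have h1 : (⟨b (σ * τ), hW.2 (σ * τ)⟩ : W) = ⟨b σ, hW.2 σ⟩ +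
          ⟨P σ (b τ), hW.1 σ _ (hW.2 τ)⟩ := Subtype.ext (hcoc σ τ)
      rw [h1, map_add, hl (P σ) ⟨σ, rfl⟩ ⟨b τ, hW.2 τ⟩ ⟨P σ (b τ), hW.1 σ _ (hW.2 τ)⟩ rfl]) (by
      have e : (F ∘ b) = fun σ => l ⟨b σ, hW.2 σ⟩ := funext hF
      rw [e]
      exact hC W hW.2 l)
    have hmem : (LinearMap.ker l).map W.subtype ∈ 𝒲 := by
      refine ⟨?_, fun σ => ?_⟩
      · rintro σ _ ⟨w, hw, rfl⟩
        refine ⟨⟨P σ w, hW.1 σ w w.2⟩, ?_, rfl⟩
        show l _ = 0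
        rw [hl (P σ) ⟨σ, rfl⟩ w ⟨P σ w, hW.1 σ w w.2⟩ rfl]
        exact hw
      · refine ⟨⟨b σ, hW.2 σ⟩, ?_, rfl⟩
        show l _ = 0
        rw [← hF]
        exact h0 σ
    have hle : (LinearMap.ker l).map W.subtype ≤ W := by
      rintro _ ⟨w, -, rfl⟩
      exact w.2
    have hge := hmin hmem hle
    apply hl0
    ext w
    obtain ⟨w', hw', he⟩ := hge w.2
    have h3 : w' = w := Subtype.ext he
    rw [← h3]
    exact hw'
  intro σ
  have h1 := hW.2 σ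
  rw [hbot] at h1
  exact (Submodule.mem_bot _).1 h1

end Pool.Agent.J6H2.TW
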