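import Pool.Agent.J6H2.TW.Fr

/-!
# Inert primes and generalized dihedral extensions
-/

set_option autoImplicit false
set_option linter.unusedSectionVars false

namespace Pool.Agent.J6H2.TW

open Pool.Agent.Y715.Nr Pool.Agent.J6H2.TW.Fr Pool.Agent.R384 Pool.Agent.W237.RK
open Pool.Agent.Y715.Gi (QB KK GK i₀_mem gk_fix)
open Pool.Agent.Y715.Df (Cmp exists_cmp)

variable {l : ℕ} [hl : Fact l.Prime]

instance maxPp : (Pp l).IsMaximal := by
  rw [Ideal.isMaximal_iff]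
  refine ⟨fun h => (inferInstance : (Pp l).IsPrime).ne_top ((Ideal.eq_top_iff_one _).2 h), ?_⟩
  intro J x _ hx hxJ
  have h1 : ‖(x : PadicAlgCl l)‖ = 1 := le_antisymm x.2 (not_lt.1 hx)
  have hx0 : (x : PadicAlgCl l) ≠ 0 := by
    intro h
    rw [h, norm_zero] at h1
    exact zero_ne_one h1
  let y : Bp l := ⟨(x : PadicAlgCl l)⁻¹, by
    show ‖(x : PadicAlgCl l)⁻¹‖ ≤ 1
    rw [norm_inv, h1, inv_one]⟩
  have h2 : y * x = 1 := Subtype.ext (inv_mul_cancel₀ hx0)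
  rw [← h2]
  exact J.mul_mem_left y hxJ

/-- the residue field -/
abbrev Rs (l : ℕ) [Fact l.Prime] : Type := Bp l ⧸ Pp l

noncomputable instance fieldRs : Field (Rs l) := Ideal.Quotient.field (Pp l)

instance charRs : CharP (Rs l) l := char_quot l

/-- the residue class -/
noncomputable def rc (x : Bp l) : Rs l := Ideal.Quotient.mk (Pp l) x

lemma rc_eq {x y : Bp l} : rc x = rc y ↔ ‖(x : PadicAlgCl l) - y‖ < 1 := by
  unfold rc
  rw [Ideal.Quotient.mk_eq_mk_iff_sub_mem]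
  rfl

lemma rc_int (n : ℤ) : rc ((n : Bp l)) = (n : Rs l) := map_intCast (Ideal.Quotient.mk (Pp l)) n

/-- elements of the prime field -/
lemma prime_field {x : Rs l} (h : x ^ l = x) : ∃ n : ℤ, (n : Rs l) = x :=
  (mem_bot_iff_intCast l (Rs l)).1 ((Subfield.mem_bot_iff_pow_eq_self (Rs l) l).2 h)

section

variable {W : PadicAlgCl l} (hW : W ^ 2 = W - 2) (hl2 : l ≠ 2)
  (hin : ∀ n : ℤ, ¬ (l : ℤ) ∣ n ^ 2 - n + 2)

include hW in
lemma W_le : ‖W‖ ≤ 1 := by
  by_contra hcon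
  push Not at hcon
  have h1 : ‖W - 2‖ ≤ ‖W‖ := by
    rw [sub_eq_add_neg]
    refine (IsUltrametricDist.norm_add_le_max W (-2)).trans (max_le le_rfl ?_)
    rw [norm_neg]
    have h4 : ‖(2 : PadicAlgCl l)‖ ≤ 1 := by
      have h3 : (2 : PadicAlgCl l) = algebraMap ℚ_[l] (PadicAlgCl l) ((2 : ℤ) : ℚ_[l]) := by
        rw [map_intCast]
        norm_num
      rw [h3, PadicAlgCl.norm_extends]
      exact Padic.norm_int_le_one 2
    exact h4.trans hcon.le
  have h2 : ‖W - 2‖ = ‖W‖ ^ 2 := by rw [← hW, norm_pow]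
  nlinarith

/-- `W` as an integer -/
noncomputable def Wb (hW : W ^ 2 = W - 2) : Bp l := ⟨W, W_le hW⟩

lemma rcW : rc (Wb hW) ^ 2 = rc (Wb hW) - 2 := by
  have h1 : (Wb hW) ^ 2 = Wb hW - 2 := Subtype.ext (by
    show W ^ 2 = ((Wb hW - 2 : Bp l) : PadicAlgCl l)
    rw [hW]
    rfl)
  have h2 := congrArg (rc (l := l)) h1
  unfold rc at h2 ⊢
  rw [map_pow, map_sub, map_ofNat] at h2
  exact h2

include hin in
lemma frobW : rc (Wb hW) ^ l = 1 - rc (Wb hW) := by
  have h1 := rcW hW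
  set v := rc (Wb hW) with hv
  have h2 : (v ^ l) ^ 2 = v ^ l - 2 := by
    have h3 := congrArg (frobenius (Rs l) l) h1
    rw [map_pow, map_sub, map_ofNat, frobenius_def] at h3
    exact h3
  have h4 : (v ^ l - v) * (v ^ l - (1 - v)) = 0 := by linear_combination h2 - h1
  rcases mul_eq_zero.1 h4 with h5 | h5
  · exfalso
    obtain ⟨n, hn⟩ := prime_field (sub_eq_zero.1 h5)
    apply hin n
    rw [← hn] at h1
    have h6 : ((n ^ 2 - n + 2 : ℤ) : Rs l) = 0 := by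
      push_cast
      linear_combination h1
    exact (CharP.intCast_eq_zero_iff (Rs l) l _).1 h6
  · exact sub_eq_zero.1 h5

include hin in
lemma sne : 2 * rc (Wb hW) - 1 ≠ 0 := by
  intro h
  have h1 := frobW hW hin
  have h2 : rc (Wb hW) ^ l = rc (Wb hW) := by
    rw [h1]
    linear_combination -h
  obtain ⟨n, hn⟩ := prime_field h2
  have h3 := rcW hW
  apply hin n
  rw [← hn] at h3
  have h6 : ((n ^ 2 - n + 2 : ℤ) : Rs l) = 0 := by
    push_cast
    linear_combination h3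
  exact (CharP.intCast_eq_zero_iff (Rs l) l _).1 h6

include hin in
/-- the elements of the field with `l²` elements -/
lemma res_two {x : Rs l} (h : (x ^ l) ^ l = x) : ∃ a b : ℤ, x = a + b * rc (Wb hW) := by
  have h1 := frobW hW hin
  have hs := sne hW hin
  set v := rc (Wb hW) with hv
  set φ := frobenius (Rs l) l with hφ
  have hφ' : ∀ y, φ y = y ^ l := fun y => frobenius_def ..
  have hx : φ (φ x) = x := by rw [hφ', hφ']; exact h
  have hv' : φ v = 1 - v := by rw [hφ', h1]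
  set b := (x - φ x) / (2 * v - 1) with hb
  have hbs : b * (2 * v - 1) = x - φ x := div_mul_cancel₀ _ hs
  have hφb : φ b = b := by
    have h2 := congrArg φ hbs
    rw [map_mul, map_sub, map_sub, map_mul, map_ofNat, map_one, hv', hx] at h2
    have h3 : (φ b - b) * (2 * v - 1) = 0 := by linear_combination -h2 - hbs
    rcases mul_eq_zero.1 h3 with h4 | h4
    · exact sub_eq_zero.1 h4
    · exact absurd h4 hs
  have hφa : φ (x - b * v) = x - b * v := by
    rw [map_sub, map_mul, hφb, hv']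
    linear_combination hbs
  obtain ⟨m, hm⟩ := prime_field (x := b) (by rw [← hφ']; exact hφb)
  obtain ⟨n, hn⟩ := prime_field (x := x - b * v) (by rw [← hφ']; exact hφa)
  refine ⟨n, m, ?_⟩
  rw [hn, hm]
  ring

include hW hin in
lemma near_two {x : PadicAlgCl l} (hx : ‖x‖ ≤ 1) (h : ‖(x ^ l) ^ l - x‖ < 1) :
    ∃ a b : ℤ, ‖x - (a + b * W)‖ < 1 := by
  obtain ⟨a, b, hab⟩ := res_two hW hin (x := rc ⟨x, hx⟩) (by
    have h1 : rc ((⟨x, hx⟩ ^ l) ^ l) = rc (l := l) ⟨x, hx⟩ := rc_eq.2 h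
    unfold rc at h1 ⊢
    rw [map_pow, map_pow] at h1
    exact h1)
  refine ⟨a, b, ?_⟩
  have h2 : rc (l := l) ⟨x, hx⟩ = rc ((a : Bp l) + (b : Bp l) * Wb hW) := by
    rw [hab]
    unfold rc
    rw [map_add, map_mul, map_intCast, map_intCast]
  have h3 := rc_eq.1 h2
  have h4 : (((a : Bp l) + (b : Bp l) * Wb hW : Bp l) : PadicAlgCl l) = a + b * W := by
    push_cast
    rfl
  rw [h4] at h3
  exact h3

include hW in
lemma W_or (τ : Au l) : τ W = W ∨ τ W = 1 - W := by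
  have h1 : (τ W) ^ 2 = τ W - 2 := by
    have := congrArg τ hW
    rwa [map_pow, map_sub, map_ofNat] at this
  have h2 : (τ W - W) * (τ W - (1 - W)) = 0 := by linear_combination h1 - hW
  rcases mul_eq_zero.1 h2 with h3 | h3
  · exact Or.inl (sub_eq_zero.1 h3)
  · exact Or.inr (sub_eq_zero.1 h3)

include hW in
lemma W_twice (τ : Au l) : τ (τ W) = W := by
  rcases W_or hW τ with h | h
  · rw [h, h]
  · rw [h, map_sub, map_one, h]
    ring

include hW hin in
lemma W_inert {τ : Au l} (h : Inert τ) : τ W = W := by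
  rcases W_or hW τ with h1 | h1
  · exact h1
  · exfalso
    have h2 := h W (W_le hW)
    have h3 : rc (Wb hW) = rc (1 - Wb hW) := by
      rw [rc_eq, ← norm_neg, neg_sub]
      show ‖(1 - W) - W‖ < 1
      rw [← h1]
      exact h2
    unfold rc at h3
    rw [map_sub, map_one] at h3
    exact sne hW hin (by unfold rc; linear_combination h3)

include hW hin in
lemma W_frob {Φ : Au l} (hΦ : ∀ x : PadicAlgCl l, ‖x‖ ≤ 1 → ‖Φ x - x ^ l‖ < 1) : Φ W ≠ W := by
  intro h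
  have h1 := hΦ W (W_le hW)
  rw [h] at h1
  have h2 : rc (Wb hW) = rc (Wb hW ^ l) := rc_eq.2 h1
  have h3 : rc (Wb hW ^ l) = 1 - rc (Wb hW) := by
    have := frobW hW hin
    unfold rc at this ⊢
    rw [map_pow]
    exact this
  rw [h3] at h2
  exact sne hW hin (by linear_combination h2)

/-- fixed by inertia and by the square of Frobenius -/
def Fx (Φ : Au l) (x : PadicAlgCl l) : Prop := (∀ τ : Au l, Inert τ → τ x = x) ∧ Φ (Φ x) = x

lemma Fx.int {Φ : Au l} (n : ℤ) : Fx Φ (n : PadicAlgCl l) :=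
  ⟨fun τ _ => map_intCast τ n, by rw [map_intCast, map_intCast]⟩

lemma Fx.alg {Φ : Au l} (c : ℚ_[l]) : Fx Φ (algebraMap ℚ_[l] (PadicAlgCl l) c) :=
  ⟨fun τ _ => τ.commutes c, by rw [AlgEquiv.commutes, AlgEquiv.commutes]⟩

lemma Fx.add {Φ : Au l} {x y : PadicAlgCl l} (h : Fx Φ x) (h' : Fx Φ y) : Fx Φ (x + y) :=
  ⟨fun τ hτ => by rw [map_add, h.1 τ hτ, h'.1 τ hτ], by rw [map_add, map_add, h.2, h'.2]⟩

lemma Fx.sub {Φ : Au l} {x y : PadicAlgCl l} (h : Fx Φ x) (h' : Fx Φ y) : Fx Φ (x - y) :=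
  ⟨fun τ hτ => by rw [map_sub, h.1 τ hτ, h'.1 τ hτ], by rw [map_sub, map_sub, h.2, h'.2]⟩

lemma Fx.mul {Φ : Au l} {x y : PadicAlgCl l} (h : Fx Φ x) (h' : Fx Φ y) : Fx Φ (x * y) :=
  ⟨fun τ hτ => by rw [map_mul, h.1 τ hτ, h'.1 τ hτ], by rw [map_mul, map_mul, h.2, h'.2]⟩

include hW hin in
lemma fxW {Φ : Au l} : Fx Φ W := ⟨fun _ hτ => W_inert hW hin hτ, W_twice hW Φ⟩

/-- the span of `1` and `W` -/
noncomputable def SW (W : PadicAlgCl l) : Submodule ℚ_[l] (PadicAlgCl l) :=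
  Submodule.span ℚ_[l] {1, W}

lemma mem_SW {x : PadicAlgCl l} : x ∈ SW W ↔ ∃ a b : ℚ_[l], a • (1 : PadicAlgCl l) + b • W = x :=
  Submodule.mem_span_pair

include hW hin in
lemma approx {Φ : Au l} (hΦ : ∀ x : PadicAlgCl l, ‖x‖ ≤ 1 → ‖Φ x - x ^ l‖ < 1) (n : ℕ) :
    ∀ x : PadicAlgCl l, Fx Φ x → ‖x‖ ≤ 1 → ∃ y ∈ SW W, ‖x - y‖ ≤ (1 / (l : ℝ)) ^ n := by
  have hl0 : (0 : ℝ) < l := by exact_mod_cast hl.out.pos
  have hll : (l : PadicAlgCl l) ≠ 0 := by exact_mod_cast hl.out.ne_zero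
  have hln : ‖(l : PadicAlgCl l)‖ = 1 / l := by
    have h1 : (l : PadicAlgCl l) = algebraMap ℚ_[l] (PadicAlgCl l) (l : ℚ_[l]) := by simp
    rw [h1, PadicAlgCl.norm_extends, Padic.norm_p, one_div]
  induction n with
  | zero =>
    intro x _ hx
    exact ⟨0, Submodule.zero_mem _, by simpa using hx⟩
  | succ n ih =>
    intro x hx hx1
    have h1 : ‖(x ^ l) ^ l - x‖ < 1 := by
      have e : (x ^ l) ^ l - x = -(Φ (Φ x) - (x ^ l) ^ l) := by rw [hx.2]; ring
      rw [e, norm_neg]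
      have h2 : ‖Φ x‖ ≤ 1 := (nrm Φ x).trans_le hx1
      have h3 := hΦ (Φ x) h2
      have h4 := hΦ x hx1
      have h5 : rc (l := l) ⟨Φ x, h2⟩ = rc (⟨x, hx1⟩ ^ l) := rc_eq.2 h4
      have h6 : rc (l := l) (⟨Φ x, h2⟩ ^ l) = rc ((⟨x, hx1⟩ ^ l) ^ l) := by
        unfold rc at h5 ⊢
        rw [map_pow, h5, map_pow, map_pow, map_pow]
      have h7 := rc_eq.1 h6
      have e2 : Φ (Φ x) - (x ^ l) ^ l = (Φ (Φ x) - Φ x ^ l) + (Φ x ^ l - (x ^ l) ^ l) := by ring
      rw [e2]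
      exact (IsUltrametricDist.norm_add_le_max _ _).trans_lt (max_lt h3 h7)
    obtain ⟨a, b, hab⟩ := near_two hW hin hx1 h1
    set x' := x - (a + b * W) with hx'
    have hF : Fx Φ x' := hx.sub ((Fx.int a).add ((Fx.int b).mul (fxW hW hin)))
    have h8 : ‖x'‖ ≤ 1 / l := by
      by_cases h0 : x' = 0
      · rw [h0, norm_zero]
        positivity
      · obtain ⟨m, hm⟩ := norm_ne h0 (mem_kur fun τ hτ => hF.1 τ (inert_of_kur hτ))
        rw [hm] at hab ⊢
        have h9 : m < 0 := by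
          by_contra hcon
          push Not at hcon
          have h10 : (1 : ℝ) ≤ (l : ℝ) ^ m := one_le_zpow₀ (by exact_mod_cast hl.out.one_le) hcon
          exact absurd hab (not_lt.2 h10)
        have h10 : (l : ℝ) ^ m ≤ (l : ℝ) ^ (-1 : ℤ) :=
          zpow_le_zpow_right₀ (by exact_mod_cast hl.out.one_le) (by omega)
        rwa [zpow_neg_one, ← one_div] at h10
    have hF' : Fx Φ (x' / l) := by
      have e : x' / l = algebraMap ℚ_[l] (PadicAlgCl l) ((l : ℚ_[l])⁻¹) * x' := by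
        rw [map_inv₀, map_natCast]
        field_simp
      rw [e]
      exact (Fx.alg _).mul hF
    obtain ⟨y, hy, hyn⟩ := ih (x' / l) hF' (by
      rw [norm_div, hln, div_le_one (by positivity)]
      exact h8)
    refine ⟨(a + b * W) + (l : PadicAlgCl l) * y, ?_, ?_⟩
    · have h11 : (l : PadicAlgCl l) * y = ((l : ℚ_[l])) • y := by
        rw [Algebra.smul_def, map_natCast]
      rw [h11]
      refine Submodule.add_mem _ ?_ (Submodule.smul_mem _ _ hy)
      rw [mem_SW]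
      refine ⟨a, b, ?_⟩
      rw [Algebra.smul_def, Algebra.smul_def, map_intCast, map_intCast, mul_one]
    · have e : x - ((a + b * W) + (l : PadicAlgCl l) * y) = l * (x' / l - y) := by
        rw [hx']
        field_simp
        ring
      rw [e, norm_mul, hln, pow_succ, mul_comm]
      exact mul_le_mul_of_nonneg_right hyn (by positivity)

include hW hin in
/-- the fixed elements are in the field generated by `W` -/
theorem fx_mem {Φ : Au l} (hΦ : ∀ x : PadicAlgCl l, ‖x‖ ≤ 1 → ‖Φ x - x ^ l‖ < 1)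
    {x : PadicAlgCl l} (hx : Fx Φ x) : x ∈ SW W := by
  have hl0 : (0 : ℝ) < l := by exact_mod_cast hl.out.pos
  have hl1 : (1 : ℝ) < l := by exact_mod_cast hl.out.one_lt
  have hln : ‖(l : PadicAlgCl l)‖ = 1 / l := by
    have h1 : (l : PadicAlgCl l) = algebraMap ℚ_[l] (PadicAlgCl l) (l : ℚ_[l]) := by simp
    rw [h1, PadicAlgCl.norm_extends, Padic.norm_p, one_div]
  have hll : (l : PadicAlgCl l) ≠ 0 := by exact_mod_cast hl.out.ne_zero
  have hcl : IsClosed (SW W : Set (PadicAlgCl l)) := by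
    have : FiniteDimensional ℚ_[l] (SW W) := FiniteDimensional.span_of_finite _ (by simp)
    exact Submodule.closed_of_finiteDimensional _
  have key : ∀ x : PadicAlgCl l, Fx Φ x → ‖x‖ ≤ 1 → x ∈ SW W := by
    intro x hx hx1
    rw [← SetLike.mem_coe, ← hcl.closure_eq, Metric.mem_closure_iff]
    intro ε hε
    obtain ⟨n, hn⟩ := exists_pow_lt_of_lt_one hε (show 1 / (l : ℝ) < 1 by
      rw [div_lt_one hl0]; exact hl1)
    obtain ⟨y, hy, hyn⟩ := approx hW hin hΦ n x hx hx1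
    exact ⟨y, hy, by rw [dist_eq_norm]; exact hyn.trans_lt hn⟩
  obtain ⟨k, hk⟩ := pow_unbounded_of_one_lt ‖x‖ hl1
  have h1 : Fx Φ ((l : PadicAlgCl l) ^ k * x) := by
    have e : (l : PadicAlgCl l) ^ k * x = algebraMap ℚ_[l] (PadicAlgCl l) ((l : ℚ_[l]) ^ k) * x := by
      rw [map_pow, map_natCast]
    rw [e]
    exact (Fx.alg _).mul hx
  have h2 := key _ h1 (by
    rw [norm_mul, norm_pow, hln, one_div, inv_pow, inv_mul_le_iff₀ (by positivity), mul_one]
    exact hk.le)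
  have e : x = ((l : ℚ_[l]) ^ k)⁻¹ • ((l : PadicAlgCl l) ^ k * x) := by
    rw [Algebra.smul_def, map_inv₀, map_pow, map_natCast]
    field_simp
  rw [e]
  exact Submodule.smul_mem _ _ h2

end

/-- **Inert primes split completely in the generalized dihedral extensions.** -/
theorem dih_split {w : QB} (hw : w ^ 2 = w - 2) {N : Subgroup (GK w)}
    (hNo : IsOpen (N : Set (GK w))) (hin : ∀ n : ℤ, ¬ (l : ℤ) ∣ n ^ 2 - n + 2)
    (hdih : ∀ τ : QB ≃ₐ[ℚ] QB, τ w ≠ w → ∀ σ : GK w, (∀ x, σ x = τ (τ x)) → σ ∈ N)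
    (ι : QB →ₐ[ℚ] PadicAlgCl l) (hur : ∀ σ ∈ (II ι : Set (GK w)), σ ∈ N) :
    ∀ σ ∈ (DD ι : Set (GK w)), σ ∈ N := by
  obtain ⟨Φ, hΦ⟩ := exists_frob l
  set W := ι w with hWdef
  have hW : W ^ 2 = W - 2 := by rw [hWdef, ← map_pow, hw, map_sub, map_ofNat]
  -- the global Frobenius element
  let _ : Algebra QB (PadicAlgCl l) := ι.toRingHom.toAlgebra
  have hst : IsScalarTower ℚ QB (PadicAlgCl l) :=
    IsScalarTower.of_algebraMap_eq (fun x => (ι.commutes x).symm)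
  let Φ' : PadicAlgCl l ≃ₐ[ℚ] PadicAlgCl l := Φ.restrictScalars ℚ
  let φ : QB ≃ₐ[ℚ] QB := Φ'.restrictNormal QB
  have hφ : ∀ x, Φ (ι x) = ι (φ x) := fun x => (AlgEquiv.restrictNormal_commutes Φ' QB x).symm
  have hφw : φ w ≠ w := by
    intro h
    apply W_frob hW hin hΦ
    rw [hWdef, hφ, h]
  obtain ⟨σ₁, hσ₁⟩ := exists_cmp ι (Φ * Φ) (i₀ := w) (W_twice hW Φ)
  have hσ₁' : ∀ x, σ₁ x = φ (φ x) := by
    intro x
    apply ι.injective
    show ι (σ₁ x) = ι (φ (φ x))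
    rw [← hσ₁ x, ← hφ, ← hφ]
    rfl
  have hσ₁N : σ₁ ∈ N := hdih φ hφw σ₁ hσ₁'
  intro δ ⟨τ, hτ⟩
  have hNc : IsClosed (N : Set (GK w)) := Subgroup.isClosed_of_isOpen N hNo
  have hfix : (IntermediateField.fixedField N).fixingSubgroup = N :=
    InfiniteGalois.fixingSubgroup_fixedField ⟨N, hNc⟩
  rw [← hfix, IntermediateField.mem_fixingSubgroup_iff]
  intro z hz
  rw [IntermediateField.mem_fixedField_iff] at hz
  have hF : Fx Φ (ι z) := by
    constructor
    · intro τ' hτ'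
      obtain ⟨σ', hσ'⟩ := exists_cmp ι τ' (i₀ := w) (W_inert hW hin hτ')
      rw [hσ' z, hz σ' (hur σ' ⟨τ', hσ', hτ'⟩)]
    · have h1 := hσ₁ z
      rw [hz σ₁ hσ₁N] at h1
      exact h1
  obtain ⟨a, b, hab⟩ := mem_SW.1 (fx_mem hW hin hΦ hF)
  apply ι.injective
  show ι (δ z) = ι z
  have h5 : τ W = W := by
    rw [hWdef, hτ w, gk_fix]
  rw [← hτ z, ← hab, Algebra.smul_def, Algebra.smul_def, mul_one, map_add, map_mul, h5,
    AlgEquiv.commutes, AlgEquiv.commutes]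

end Pool.Agent.J6H2.TW
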