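import Pool.Agent.R384.Prd

/-!
# Frobenius elements of the absolute Galois group of `ℚ_p`
-/

set_option autoImplicit false
set_option linter.unusedSectionVars false

namespace Pool.Agent.J6H2.TW.Fr

open Pool.Agent.Y715.Nr (Au nrm Inert)
open scoped Pointwise

section

variable (p : ℕ) [Fact p.Prime]

/-- the integers of the algebraic closure -/
def Bp : Subring (PadicAlgCl p) where
  carrier := {x | ‖x‖ ≤ 1}
  zero_mem' := by simp
  one_mem' := by simp
  mul_mem' := by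
    intro a b ha hb
    show ‖a * b‖ ≤ 1
    rw [norm_mul]
    exact mul_le_one₀ ha (norm_nonneg _) hb
  add_mem' := by
    intro a b ha hb
    exact (IsUltrametricDist.norm_add_le_max a b).trans (max_le ha hb)
  neg_mem' := by
    intro a ha
    show ‖-a‖ ≤ 1
    rw [norm_neg]
    exact ha

/-- the maximal ideal -/
def Pp : Ideal (Bp p) where
  carrier := {x | ‖(x : PadicAlgCl p)‖ < 1}
  zero_mem' := by simp
  add_mem' := by
    intro a b ha hb
    exact (IsUltrametricDist.norm_add_le_max (a : PadicAlgCl p) b).trans_lt (max_lt ha hb)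
  smul_mem' := by
    intro a b hb
    show ‖(a : PadicAlgCl p) * (b : PadicAlgCl p)‖ < 1
    rw [norm_mul]
    exact (mul_le_of_le_one_left (norm_nonneg _) a.2).trans_lt hb

instance : (Pp p).IsPrime := by
  rw [Ideal.isPrime_iff]
  constructor
  · rw [Ideal.ne_top_iff_one]
    intro h
    have h1 : ‖((1 : Bp p) : PadicAlgCl p)‖ < 1 := h
    simp at h1
  · intro x y hxy
    by_contra hcon
    rw [not_or] at hcon
    have h1 : 1 ≤ ‖(x : PadicAlgCl p)‖ := not_lt.1 hcon.1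
    have h2 : 1 ≤ ‖(y : PadicAlgCl p)‖ := not_lt.1 hcon.2
    have h3 : ‖(x : PadicAlgCl p) * (y : PadicAlgCl p)‖ < 1 := hxy
    rw [norm_mul] at h3
    nlinarith

noncomputable instance : MulSemiringAction (Au p) (Bp p) where
  smul σ x := ⟨σ x, (nrm σ x).trans_le x.2⟩
  one_smul _ := rfl
  mul_smul _ _ _ := rfl
  smul_zero σ := Subtype.ext (map_zero σ)
  smul_add σ x y := Subtype.ext (map_add σ (x : PadicAlgCl p) (y : PadicAlgCl p))
  smul_one σ := Subtype.ext (map_one σ)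
  smul_mul σ x y := Subtype.ext (map_mul σ (x : PadicAlgCl p) (y : PadicAlgCl p))

theorem coe_smul (σ : Au p) (x : Bp p) : ((σ • x : Bp p) : PadicAlgCl p) = σ x := rfl

/-- the structure map -/
noncomputable def emb : ℤ_[p] →+* Bp p where
  toFun a := ⟨algebraMap ℚ_[p] (PadicAlgCl p) a, by
    show ‖algebraMap ℚ_[p] (PadicAlgCl p) a‖ ≤ 1
    rw [PadicAlgCl.norm_extends]
    exact a.2⟩
  map_one' := Subtype.ext (by simp)
  map_zero' := Subtype.ext (by simp)
  map_add' a b := Subtype.ext (by simp)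
  map_mul' a b := Subtype.ext (by simp)

noncomputable instance : Algebra ℤ_[p] (Bp p) := (emb p).toAlgebra

theorem coe_algebraMap (a : ℤ_[p]) : ((algebraMap ℤ_[p] (Bp p) a : Bp p) : PadicAlgCl p) =
    algebraMap ℚ_[p] (PadicAlgCl p) a := rfl

instance : SMulCommClass (Au p) ℤ_[p] (Bp p) := by
  refine ⟨fun g a b => ?_⟩
  rw [Algebra.smul_def, Algebra.smul_def]
  apply Subtype.ext
  rw [coe_smul]
  show g ((algebraMap ℤ_[p] (Bp p) a : Bp p) * (b : PadicAlgCl p)) =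
    (algebraMap ℤ_[p] (Bp p) a : Bp p) * g b
  rw [map_mul, coe_algebraMap, AlgEquiv.commutes]

instance : Algebra.IsInvariant ℤ_[p] (Bp p) (Au p) := by
  refine ⟨fun b hb => ?_⟩
  have h1 : (b : PadicAlgCl p) ∈ Set.range (algebraMap ℚ_[p] (PadicAlgCl p)) := by
    rw [InfiniteGalois.mem_range_algebraMap_iff_fixed]
    intro g
    exact congrArg (fun z : Bp p => (z : PadicAlgCl p)) (hb g)
  obtain ⟨a, ha⟩ := h1
  have h2 : ‖a‖ ≤ 1 := by
    rw [← PadicAlgCl.norm_extends p a]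
    show ‖algebraMap ℚ_[p] (PadicAlgCl p) a‖ ≤ 1
    rw [ha]
    exact b.2
  exact ⟨⟨a, h2⟩, Subtype.ext ha⟩

theorem lift_aut (σ : (Bp p ⧸ Pp p) ≃ₐ[ℤ_[p] ⧸ (Pp p).under ℤ_[p]] (Bp p ⧸ Pp p)) :
    ∃ τ : Au p, ∀ x : Bp p, Ideal.Quotient.mk (Pp p) (τ • x) = σ (Ideal.Quotient.mk (Pp p) x) := by
  let _ : TopologicalSpace (Bp p) := ⊥
  have : DiscreteTopology (Bp p) := ⟨rfl⟩
  have hcont : ContinuousSMul (Au p) (Bp p) := by
    rw [continuousSMul_iff_stabilizer_isOpen]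
    intro x
    have h1 := stabilizer_isOpen_of_isIntegral (K := ℚ_[p]) (x : PadicAlgCl p)
    convert h1 using 2
    ext g
    rw [MulAction.mem_stabilizer_iff, MulAction.mem_stabilizer_iff]
    constructor
    · intro h
      exact congrArg (fun z : Bp p => (z : PadicAlgCl p)) h
    · intro h
      exact Subtype.ext h
  obtain ⟨k, hk⟩ := Ideal.Quotient.stabilizerHom_surjective_of_profinite
    (G := Au p) ((Pp p).under ℤ_[p]) (Pp p) σ
  refine ⟨k.1, fun x => ?_⟩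
  have h1 := DFunLike.congr_fun hk (Ideal.Quotient.mk (Pp p) x)
  rw [Ideal.Quotient.stabilizerHom_apply] at h1
  exact h1

theorem p_mem : ((p : ℕ) : Bp p) ∈ Pp p := by
  show ‖(((p : ℕ) : Bp p) : PadicAlgCl p)‖ < 1
  have h1 : (((p : ℕ) : Bp p) : PadicAlgCl p) = algebraMap ℚ_[p] (PadicAlgCl p) (p : ℚ_[p]) := by simp
  rw [h1, PadicAlgCl.norm_extends]
  exact Padic.norm_p_lt_one

theorem fermat (a : ℤ_[p]) : ‖((a ^ p - a : ℤ_[p]) : ℚ_[p])‖ < 1 := by
  have h1 : a ^ p - a ∈ IsLocalRing.maximalIdeal ℤ_[p] := by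
    rw [← PadicInt.ker_toZMod, RingHom.mem_ker, map_sub, map_pow, ZMod.pow_card, sub_self]
  rw [IsLocalRing.mem_maximalIdeal, PadicInt.mem_nonunits, PadicInt.norm_def] at h1
  exact h1

theorem char_quot : CharP (Bp p ⧸ Pp p) p := by
  have h1 : ((p : ℕ) : Bp p ⧸ Pp p) = 0 := by
    rw [← map_natCast (Ideal.Quotient.mk (Pp p)), Ideal.Quotient.eq_zero_iff_mem]
    exact p_mem p
  exact (CharP.charP_iff_prime_eq_zero (Fact.out : p.Prime)).2 h1

/-- the Frobenius automorphism of the residue field lifts -/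
theorem exists_frob : ∃ τ : Au p, ∀ x : PadicAlgCl p, ‖x‖ ≤ 1 → ‖τ x - x ^ p‖ < 1 := by
  have hch := char_quot p
  have hp : p.Prime := Fact.out
  have hbij : Function.Bijective (frobenius (Bp p ⧸ Pp p) p) := by
    constructor
    · rw [injective_iff_map_eq_zero]
      intro x hx
      rw [frobenius_def] at hx
      exact pow_eq_zero_iff hp.ne_zero |>.1 hx
    · intro x
      obtain ⟨x, rfl⟩ := Ideal.Quotient.mk_surjective x
      obtain ⟨y, hy⟩ := IsAlgClosed.exists_pow_nat_eq (x : PadicAlgCl p) hp.pos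
      have hy1 : ‖y‖ ≤ 1 := by
        by_contra hcon
        push Not at hcon
        have h1 : 1 < ‖y‖ ^ p := one_lt_pow₀ hcon hp.ne_zero
        rw [← norm_pow, hy] at h1
        exact absurd x.2 (not_le.2 h1)
      refine ⟨Ideal.Quotient.mk (Pp p) ⟨y, hy1⟩, ?_⟩
      rw [frobenius_def, ← map_pow]
      congr 1
      exact Subtype.ext hy
  let e : (Bp p ⧸ Pp p) ≃+* (Bp p ⧸ Pp p) := RingEquiv.ofBijective _ hbij
  let σ : (Bp p ⧸ Pp p) ≃ₐ[ℤ_[p] ⧸ (Pp p).under ℤ_[p]] (Bp p ⧸ Pp p) :=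
    AlgEquiv.ofRingEquiv (f := e) (by
      intro a
      obtain ⟨a, rfl⟩ := Ideal.Quotient.mk_surjective a
      show (Ideal.Quotient.mk (Pp p) (algebraMap ℤ_[p] (Bp p) a)) ^ p =
        Ideal.Quotient.mk (Pp p) (algebraMap ℤ_[p] (Bp p) a)
      rw [← map_pow, Ideal.Quotient.mk_eq_mk_iff_sub_mem, ← map_pow, ← map_sub]
      show ‖algebraMap ℚ_[p] (PadicAlgCl p) ((a ^ p - a : ℤ_[p]) : ℚ_[p])‖ < 1
      rw [PadicAlgCl.norm_extends]
      exact fermat p a)
  obtain ⟨τ, hτ⟩ := lift_aut p σ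
  refine ⟨τ, fun x hx => ?_⟩
  have h1 := hτ ⟨x, hx⟩
  have h2 : σ (Ideal.Quotient.mk (Pp p) ⟨x, hx⟩) = Ideal.Quotient.mk (Pp p) (⟨x, hx⟩ ^ p) := by
    show (Ideal.Quotient.mk (Pp p) ⟨x, hx⟩) ^ p = _
    rw [map_pow]
  rw [h2, Ideal.Quotient.mk_eq_mk_iff_sub_mem] at h1
  exact h1

end

end Pool.Agent.J6H2.TW.Fr
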