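import Pool.Agent.R384.Prd
import Pool.Agent.J6H2.TW.Bd

/-!
# Bounds for the Selmer groups of the tensor products over the `2`-extensions
-/

set_option autoImplicit false
set_option linter.unusedSectionVars false

namespace Pool.Agent.J6H2.TW

open Pool.Agent.R384
open Pool.Agent.Y715.Red Pool.Agent.Y715.Nr Pool.Agent.W237.RK
open Pool.Agent.Y715.Gi (QB KK GK i₀_mem gk_fix)
open Pool.Agent.Y715.Df (Cmp exists_cmp)
open Pool.Agent.Y715.Lc (norm_two_odd)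

open scoped Classical

variable {i₀ : QB} (hi : i₀ ^ 2 = i₀ - 2)

section

variable {I : QB} {ι₁ ι₂ : QB →ₐ[ℚ] PadicAlgCl 2} {n i : ℕ} {a b c d : Fin n → OO}
  {rk : Fin n → QB} {ρ : Fin n → GK i₀ →* Matrix (Fin 2) (Fin 2) ℤ_[2]}

/-- the odd places where all parameters are units are unramified -/
theorem prod_unr (hρ : ∀ k, Rho hi (a k) (b k) (c k) (rk k) I ι₁ ι₂ (ρ k))
    (hrk : ∀ k, rk k ^ 2 = em hi (d k)) {p : ℕ} [Fact p.Prime] (ι : QB →ₐ[ℚ] PadicAlgCl p)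
    (hp : p ≠ 2) (h : ∀ k, ¬ ‖em (iw hi ι) (d k * (a k * b k * c k))‖ < 1) :
    ∀ σ ∈ (II ι : Set (GK i₀)), ∀ v, tR ρ (cyc i₀) i σ v = v := by
  intro σ hσ v
  have hfac : ∀ k, ¬ ‖em (iw hi ι) (d k)‖ < 1 ∧ ‖ι (em hi (a k))‖ = 1 ∧ ‖ι (em hi (b k))‖ = 1 ∧
      ‖ι (em hi (c k))‖ = 1 := by
    intro k
    have h3 := h k
    rw [map_mul, map_mul, map_mul, norm_mul, norm_mul, norm_mul, not_lt] at h3
    rw [ι_em, ι_em, ι_em, not_lt]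
    have n0 := em_le (iw hi ι) (d k)
    have n1 := em_le (iw hi ι) (a k)
    have n2 := em_le (iw hi ι) (b k)
    have n3 := em_le (iw hi ι) (c k)
    have m0 := norm_nonneg (em (iw hi ι) (d k))
    have m1 := norm_nonneg (em (iw hi ι) (a k))
    have m2 := norm_nonneg (em (iw hi ι) (b k))
    have m3 := norm_nonneg (em (iw hi ι) (c k))
    have m12 : ‖em (iw hi ι) (a k)‖ * ‖em (iw hi ι) (b k)‖ ≤ 1 := mul_le_one₀ n1 m2 n2
    have m123 : ‖em (iw hi ι) (a k)‖ * ‖em (iw hi ι) (b k)‖ * ‖em (iw hi ι) (c k)‖ ≤ 1 :=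
      mul_le_one₀ m12 m3 n3
    have e0 : 1 ≤ ‖em (iw hi ι) (d k)‖ := by nlinarith [mul_nonneg (mul_nonneg m1 m2) m3]
    have e123 : 1 ≤ ‖em (iw hi ι) (a k)‖ * ‖em (iw hi ι) (b k)‖ * ‖em (iw hi ι) (c k)‖ := by
      nlinarith [mul_nonneg (mul_nonneg m1 m2) m3]
    have e3 : 1 ≤ ‖em (iw hi ι) (c k)‖ := by nlinarith [mul_nonneg m1 m2]
    have e12 : 1 ≤ ‖em (iw hi ι) (a k)‖ * ‖em (iw hi ι) (b k)‖ := by nlinarith [mul_nonneg m1 m2]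
    have e2 : 1 ≤ ‖em (iw hi ι) (b k)‖ := by nlinarith
    have e1 : 1 ≤ ‖em (iw hi ι) (a k)‖ := by nlinarith
    exact ⟨e0, le_antisymm n1 e1, le_antisymm n2 e2, le_antisymm n3 e3⟩
  have hχ := cyc_inert hp hσ
  have hr : ∀ k, σ (rk k) = rk k := by
    intro k
    obtain ⟨τ, hτ, hin⟩ := hσ
    have h3 : (ι (rk k)) ^ 2 = em (iw hi ι) (d k) := by rw [← map_pow, hrk, ι_em]
    have h4 : τ (ι (rk k)) = ι (rk k) :=
      fix_of_unit (iw hi ι) hp h3 (hfac k).1 hin hτ.fix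
    apply ι.injective
    show ι (σ (rk k)) = ι (rk k)
    rw [← hτ, h4]
  have hsc : ∀ k, ρ k σ = (1 : ℤ_[2]) • 1 := by
    intro k
    rw [one_smul]
    exact ((hρ k).odd p ι hp (hfac k).2.1 (hfac k).2.2.1 (hfac k).2.2.2 σ hσ).1 (hr k)
  rw [tR_scalar ρ (cyc i₀) i hsc hχ]
  simp

/-- **The bound for tensor products over the `2`-extensions.** -/
theorem prod_bound (hI : I ^ 2 = -1) (hι₁ : ‖ι₁ i₀‖ < 1) (hι₂ : ‖ι₂ (1 - i₀)‖ < 1)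
    (hn : n = 2 * i + 1) (hρ : ∀ k, Rho hi (a k) (b k) (c k) (rk k) I ι₁ ι₂ (ρ k))
    (hrk : ∀ k, rk k ^ 2 = em hi (d k)) (hd0 : ∀ k, d k ≠ 0)
    {H M : Subgroup (GK i₀)} (hMH : M ≤ H) (hM : M.Normal) (hidx : ∃ a : ℕ, M.index = 2 ^ a)
    (hMo : IsOpen (M : Set (GK i₀)))
    (hur : ∀ (p : ℕ) [Fact p.Prime] (ι : QB →ₐ[ℚ] PadicAlgCl p), p ≠ 2 →
      ∀ σ ∈ (II ι : Set (GK i₀)), σ ∈ M)
    {r m : ℕ} {J : Fin r → Set (GK i₀)}
    (hJ : ∀ (p : ℕ) [Fact p.Prime] (ι : QB →ₐ[ℚ] PadicAlgCl p), p ≠ 2 →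
      (∀ σ ∈ (II ι : Set (GK i₀)), ∀ v, tR ρ (cyc i₀) i σ v = v) ∨
      ∃ k, ∃ g ∈ H, ∀ σ ∈ (II ι : Set (GK i₀)), g⁻¹ * σ * g ∈ J k)
    {f : Fin m → H → (Fin n → Fin 2) → ℚ_[2]} (hfc : ∀ j, Continuous (f j))
    (hf : ∀ j, ∀ σ τ : H, f j (σ * τ) = f j σ + tR ρ (cyc i₀) i σ (f j τ))
    (hodd : ∀ j, ∀ (p : ℕ) [Fact p.Prime] (ι : QB →ₐ[ℚ] PadicAlgCl p), p ≠ 2 →
      ∃ y, ∀ σ : H, (σ : GK i₀) ∈ (II ι : Set (GK i₀)) → f j σ = tR ρ (cyc i₀) i σ y - y)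
    (hoddJ : ∀ j k, ∃ y, ∀ σ : H, (σ : GK i₀) ∈ J k → f j σ = tR ρ (cyc i₀) i σ y - y)
    (h1 : ∀ j, ∃ y, ∀ σ : H, (σ : GK i₀) ∈ (DD ι₁ : Set (GK i₀)) → ∀ x : Fin n → Fin 2,
      cn x 0 ≤ i → f j σ x = (tR ρ (cyc i₀) i σ y - y) x)
    (h2 : ∀ j, ∃ y, ∀ σ : H, (σ : GK i₀) ∈ (DD ι₂ : Set (GK i₀)) → ∀ x : Fin n → Fin 2,
      cn x 1 ≤ i → f j σ x = (tR ρ (cyc i₀) i σ y - y) x)
    (hm : ∑ k, Module.finrank ℚ_[2] (((Fin n → Fin 2) → ℚ_[2]) ⧸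
      fixd (res (tR ρ (cyc i₀) i) H) {σ : H | (σ : GK i₀) ∈ J k}) < m) :
    ∃ s : Fin m → ℚ_[2], s ≠ 0 ∧ ∃ y, ∀ σ : H, ∑ j, s j • f j σ = tR ρ (cyc i₀) i σ y - y := by
  have hD0 : ∏ k, d k ≠ 0 := Finset.prod_ne_zero_iff.2 fun k _ => hd0 k
  have hr : (∏ k, rk k) ^ 2 = em hi (∏ k, d k) := by
    rw [← Finset.prod_pow, map_prod]
    exact Finset.prod_congr rfl fun k _ => hrk k
  have vd := vd_of (i := i) (s := 1) hi hr hI hD0 hrk one_ne_zero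
    (by rw [map_one, mul_one]) hρ
  have hne : ι₁ ≠ ι₂ := by
    rintro rfl
    have h3 : ‖ι₁ (1 : QB)‖ < 1 := by
      have e : (1 : QB) = i₀ + (1 - i₀) := by ring
      rw [e, map_add]
      exact add_lt hι₁ hι₂
    rw [map_one, norm_one] at h3
    exact lt_irrefl _ h3
  set κ : (Fin n → Fin 2) → (QB →ₐ[ℚ] PadicAlgCl 2) := fun x => if cn x 0 ≤ i then ι₁ else ι₂
    with hκ
  have κ1 : ∀ x, κ x = ι₁ ↔ cn x 0 ≤ i := by
    intro x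
    simp only [hκ]
    split_ifs with h
    · simp [h]
    · simp [h, hne.symm]
  have κ2 : ∀ x, κ x = ι₂ ↔ cn x 1 ≤ i := by
    intro x
    have h3 := cn_add x
    simp only [hκ]
    split_ifs with h
    · constructor
      · intro h4; exact absurd h4 hne
      · intro h4; omega
    · constructor
      · intro _; omega
      · intro _; rfl
  have κor : ∀ x, κ x = ι₁ ∨ κ x = ι₂ := by
    intro x
    simp only [hκ]
    split_ifs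
    · exact Or.inl rfl
    · exact Or.inr rfl
  refine bound hi (R := res (tR ρ (cyc i₀) i) H) (κ := κ) hMH hM hidx hMo hur
    (fun σ v => vd.tr hi σ v) (fun v => (vd.cont v).comp continuous_subtype_val) ?_
    (I := fun k => {σ : H | (σ : GK i₀) ∈ J k}) ?_ hfc hf hodd hoddJ ?_ hm
  · -- stability
    intro x σ hσ v hv x' hx'
    have h01 : ∀ s : Fin 2, s ≠ 0 → s = 1 := by decide
    have h10 : ∀ s : Fin 2, s ≠ 1 → s = 0 := by decide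
    show tR ρ (cyc i₀) i σ v x' = 0
    rcases κor x with h3 | h3
    · rw [h3] at hσ hv hx'
      refine tR_stable ρ (cyc i₀) i (t := 0) (m := i) (fun k s hs => ?_) (fun b hb => hv b ((κ1 b).2 hb))
        x' ((κ1 x').1 hx')
      rw [h01 s hs]
      exact (hρ k).d1 σ hσ
    · rw [h3] at hσ hv hx'
      refine tR_stable ρ (cyc i₀) i (t := 1) (m := i) (fun k s hs => ?_) (fun b hb => hv b ((κ2 b).2 hb))
        x' ((κ2 x').1 hx')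
      rw [h10 s hs]
      exact (hρ k).d2 σ hσ
  · intro p _ ι hp
    rcases hJ p ι hp with h | ⟨k, g, hg, h⟩
    · exact Or.inl fun σ hσ v => h σ hσ v
    · exact Or.inr ⟨k, ⟨g, hg⟩, fun σ hσ => h σ hσ⟩
  · intro j x
    rcases κor x with h3 | h3
    · obtain ⟨y, hy⟩ := h1 j
      refine ⟨y, fun σ hσ b' hb' => ?_⟩
      rw [h3] at hσ hb'
      exact hy σ hσ b' ((κ1 b').1 hb')
    · obtain ⟨y, hy⟩ := h2 j
      refine ⟨y, fun σ hσ b' hb' => ?_⟩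
      rw [h3] at hσ hb'
      exact hy σ hσ b' ((κ2 b').1 hb')

end

end Pool.Agent.J6H2.TW
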