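import Pool.Agent.R384.Z.Gen
import Pool.Agent.R384.Core

/-!
# The decomposition groups above `2` act transitively on the cosets
-/

set_option autoImplicit false

namespace Pool.Agent.J6H2.TW

open Pool.Agent.Y715.Red Pool.Agent.Y715.Nr Pool.Agent.W237.RK
open Pool.Agent.Y715.Gi (QB KK GK)

/-- the statement for a field -/
def Surj (k : IntermediateField ℚ QB) : Prop :=
  ∀ (U : Subgroup (QB ≃ₐ[k] QB)), U.Normal → (∃ a : ℕ, U.index = 2 ^ a) →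
    IsOpen (U : Set (QB ≃ₐ[k] QB)) →
    (∀ (p : ℕ) [Fact p.Prime] (ι : QB →ₐ[ℚ] PadicAlgCl p), p ≠ 2 →
      ∀ σ : QB ≃ₐ[k] QB, (∃ τ : Au p, (∀ x, τ (ι x) = ι (σ x)) ∧ Inert τ) → σ ∈ U) →
    ∀ (ι₀ : QB →ₐ[ℚ] PadicAlgCl 2) (g : QB ≃ₐ[k] QB),
      ∃ δ : QB ≃ₐ[k] QB, (∃ τ : Au 2, ∀ x, τ (ι₀ x) = ι₀ (δ x)) ∧ δ⁻¹ * g ∈ U

lemma surj_s {s : QB} (hs : s ^ 2 = -7) : Surj (KK s) := by
  intro U hUn ⟨a, ha⟩ hUo hur ι₀ g
  have hF : Pool.Agent.Z384.Fld 7 := Or.inl ⟨by norm_num, by norm_num⟩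
  have hs' : s ^ 2 = -((7 : ℕ) : QB) := by rw [hs]; norm_num
  exact Pool.Agent.Z384.surj hs' hF hUn ha hUo (fun p _ ι hp σ hσ => hur p ι hp σ hσ) ι₀ g

lemma KK_eq {i₀ : QB} : KK i₀ = KK (2 * i₀ - 1) := by
  apply le_antisymm
  · rw [IntermediateField.adjoin_simple_le_iff]
    have h : (2 * i₀ - 1 : QB) ∈ KK (2 * i₀ - 1) := IntermediateField.mem_adjoin_simple_self ℚ _
    have h2 : (2 : QB) ∈ KK (2 * i₀ - 1) := by
      have := (KK (2 * i₀ - 1)).algebraMap_mem (2 : ℚ)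
      rwa [map_ofNat] at this
    have e : (2 * i₀ - 1 + 1) / 2 = i₀ := by ring
    have h3 := div_mem (add_mem h (one_mem _)) h2
    rw [e] at h3
    exact h3
  · rw [IntermediateField.adjoin_simple_le_iff]
    have h : i₀ ∈ KK i₀ := IntermediateField.mem_adjoin_simple_self ℚ _
    have h2 : (2 : QB) ∈ KK i₀ := by
      have := (KK i₀).algebraMap_mem (2 : ℚ)
      rwa [map_ofNat] at this
    exact sub_mem (mul_mem h2 h) (one_mem _)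

open Pool.Agent.R384 (II DD)

/-- the decomposition groups above `2` act transitively on the cosets -/
theorem trans {i₀ : QB} (hi : i₀ ^ 2 = i₀ - 2) {N : Subgroup (GK i₀)} (hN : N.Normal)
    (hidx : ∃ a : ℕ, N.index = 2 ^ a) (hNo : IsOpen (N : Set (GK i₀)))
    (hur : ∀ (p : ℕ) [Fact p.Prime] (ι : QB →ₐ[ℚ] PadicAlgCl p), p ≠ 2 →
      ∀ σ ∈ (II ι : Set (GK i₀)), σ ∈ N) (ι₀ : QB →ₐ[ℚ] PadicAlgCl 2) (g : GK i₀) :
    ∃ δ ∈ (DD ι₀ : Set (GK i₀)), δ⁻¹ * g ∈ N := by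
  have hs : (2 * i₀ - 1) ^ 2 = -7 := by linear_combination 4 * hi
  have h := surj_s hs
  rw [← KK_eq] at h
  obtain ⟨δ, h1, h2⟩ := h N hN hidx hNo (fun p _ ι hp σ hσ => hur p ι hp σ hσ) ι₀ g
  exact ⟨δ, h1, h2⟩

end Pool.Agent.J6H2.TW
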