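import Pool.Agent.J6H2.TW.Ti
import Pool.Agent.J6H2.TW.Dev2
import Pool.Agent.J6H2.TW.Trans

/-!
# The vanishing theorem over the `2`-extensions unramified outside `2`
-/

set_option autoImplicit false
set_option linter.unusedSectionVars false

namespace Pool.Agent.J6H2.TW

open Pool.Agent.Y715.Red Pool.Agent.Y715.Nr Pool.Agent.W237.RK
open Pool.Agent.Y715.Gi (QB KK GK i₀_mem gk_fix)
open Pool.Agent.Y715.Df (Cmp exists_cmp gh)
open Pool.Agent.Z384 (rr rr_mk kk kk_val smul_of_normal)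
open Pool.Agent.R384

open scoped Classical

variable {B : Type} [Fintype B]

/-! ### Reduction modulo two -/

/-- reduction modulo two, as a map -/
noncomputable def m1 (z : ℚ_[2]) : ZMod 2 := if ‖z‖ < 1 then 0 else 1

lemma m1_zero {z : ℚ_[2]} : m1 z = 0 ↔ ‖z‖ < 1 := by
  unfold m1
  split_ifs with h
  · simp [h]
  · simp [h]

lemma m1_congr {u v : ℚ_[2]} (h : ‖u - v‖ < 1) : m1 u = m1 v := by
  have : ‖u‖ < 1 ↔ ‖v‖ < 1 := by
    constructor
    · intro h1
      have e : v = u + -(u - v) := by ring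
      rw [e]
      exact add_lt' h1 (by rwa [norm_neg])
    · intro h1
      have e : u = (u - v) + v := by ring
      rw [e]
      exact add_lt' h h1
  unfold m1
  simp [this]

lemma m1_add {u v : ℚ_[2]} (hu : ‖u‖ ≤ 1) (hv : ‖v‖ ≤ 1) : m1 (u + v) = m1 u + m1 v := by
  by_cases h1 : ‖u‖ < 1
  · have h2 : m1 (u + v) = m1 v := m1_congr (by rwa [add_sub_cancel_right])
    rw [h2, m1_zero.2 h1, zero_add]
  · by_cases h2 : ‖v‖ < 1
    · have h3 : m1 (u + v) = m1 u := m1_congr (by rwa [add_sub_cancel_left])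
      rw [h3, m1_zero.2 h2, add_zero]
    · have a1 := (md_eq hu).1 h1
      have a2 := (md_eq hv).1 h2
      have h20 : ‖(2 : ℚ_[2])‖ < 1 := by rw [norm_two']; norm_num
      have h3 : ‖u + v‖ < 1 := by
        have e : u + v = (u - 1) + (v - 1) + 2 := by ring
        rw [e]
        exact add_lt' (add_lt' a1 a2) h20
      have e1 : m1 u = 1 := if_neg h1
      have e2 : m1 v = 1 := if_neg h2
      rw [m1_zero.2 h3, e1, e2]
      rfl

/-! ### Subgroups -/

section sub

variable {G : Type} [Group G] [TopologicalSpace G]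

/-- the restriction to a subgroup -/
noncomputable def res (R : Representation ℚ_[2] G (B → ℚ_[2])) (N : Subgroup G) :
    Representation ℚ_[2] N (B → ℚ_[2]) := R.comp N.subtype

lemma res_apply (R : Representation ℚ_[2] G (B → ℚ_[2])) (N : Subgroup G) (σ : N)
    (v : B → ℚ_[2]) : res R N σ v = R σ v := rfl

end sub

variable {i₀ : QB} (hi : i₀ ^ 2 = i₀ - 2)

lemma II_conj {p : ℕ} [Fact p.Prime] {ι : QB →ₐ[ℚ] PadicAlgCl p} {σ : GK i₀}
    (h : σ ∈ (II ι : Set (GK i₀))) (r : GK i₀) :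
    r⁻¹ * σ * r ∈ (II (ι.comp (gh r)) : Set (GK i₀)) := by
  obtain ⟨τ, hτ, hin⟩ := h
  refine ⟨τ, fun z => ?_, hin⟩
  show τ (ι (r z)) = ι (r ((r⁻¹ * σ * r) z))
  rw [hτ, ← AlgEquiv.mul_apply, ← AlgEquiv.mul_apply]
  congr 2
  group

/-- the decomposition group as a subgroup -/
def DDs {p : ℕ} [Fact p.Prime] (ι : QB →ₐ[ℚ] PadicAlgCl p) : Subgroup (GK i₀) where
  carrier := DD ι
  mul_mem' := by
    rintro σ σ' ⟨τ, h⟩ ⟨τ', h'⟩
    exact ⟨τ * τ', h.mul h'⟩
  one_mem' := ⟨1, fun _ => rfl⟩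
  inv_mem' := by
    rintro σ ⟨τ, h⟩
    refine ⟨τ⁻¹, fun x => ?_⟩
    have h5 := h (σ⁻¹ x)
    rw [← AlgEquiv.mul_apply σ σ⁻¹, mul_inv_cancel, AlgEquiv.one_apply] at h5
    rw [← h5, ← AlgEquiv.mul_apply τ⁻¹ τ, inv_mul_cancel, AlgEquiv.one_apply]

variable {R : Representation ℚ_[2] (GK i₀) (B → ℚ_[2])} {rt : B → QB} {mm : B → OO}

/-- `R σ` preserves the unit ball -/
lemma VD.le (vd : VD hi R rt mm) (σ : GK i₀) (v : B → ℚ_[2]) : ‖R σ v‖ ≤ ‖v‖ := by
  have h := vd.tr hi σ v
  have hv := norm_nonneg v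
  have e : R σ v = (R σ v - v) + v := by abel
  rw [e]
  exact vadd hv (h.trans (by linarith)) le_rfl

/-- **The vanishing theorem over the `2`-extensions.** -/
theorem vtower {n : ℕ} {q : Fin n → OO} (hq : ∀ i, Pr (q i)) (hinj : Function.Injective q)
    (h8 : (8 : OO) ∣ ∏ i, q i - 5) (hind : Indec q)
    (hm : ∀ b, mm b = ∏ i, q i ∨ mm b = -∏ i, q i) (vd : VD hi R rt mm)
    (ϖ ϖ' : B → OO) (hϖ : ∀ b, (ϖ b = om ∧ ϖ' b = 1 - om) ∨ (ϖ b = 1 - om ∧ ϖ' b = om))
    (κ : B → (QB →ₐ[ℚ] PadicAlgCl 2)) (hκ : ∀ b, ‖κ b (em hi (ϖ b))‖ < 1)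
    (hmove : ∀ b, ∃ σ ∈ (DD (κ b) : Set (GK i₀)), σ (rt b) = -rt b)
    {H N : Subgroup (GK i₀)} (hNH : N ≤ H) (hN : N.Normal) (hidx : ∃ a : ℕ, N.index = 2 ^ a)
    (hNo : IsOpen (N : Set (GK i₀)))
    (hur : ∀ (p : ℕ) [Fact p.Prime] (ι : QB →ₐ[ℚ] PadicAlgCl p), p ≠ 2 →
      ∀ σ ∈ (II ι : Set (GK i₀)), σ ∈ N)
    {c : H → B → ℚ_[2]} (hcc : Continuous c) (hc : ∀ σ τ : H, c (σ * τ) = c σ + R σ (c τ))
    (hodd : ∀ (p : ℕ) [Fact p.Prime] (ι : QB →ₐ[ℚ] PadicAlgCl p), p ≠ 2 →
      ∃ y, ∀ σ : H, (σ : GK i₀) ∈ (II ι : Set (GK i₀)) → c σ = R σ y - y)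
    (hpl : ∀ (p : ℕ) [Fact p.Prime] (ι : QB →ₐ[ℚ] PadicAlgCl p), p ≠ 2 →
      ((∀ σ ∈ (II ι : Set (GK i₀)), ((∀ v, R σ v = v) ∧ ∀ b, σ (rt b) = rt b) ∨
        ((∀ v, R σ v = -v) ∧ ∀ b, σ (rt b) = -rt b)) ∧
        ((∃ b, ‖em (iw hi ι) (mm b)‖ < 1) → ∀ σ ∈ (DD ι : Set (GK i₀)), σ ∈ N)) ∨
      ((∃ F ∈ (DD ι : Set (GK i₀)), F ∈ N ∧ ∀ b, F (rt b) = -rt b) ∧
        (∀ σ ∈ (II ι : Set (GK i₀)), ∀ b, σ (rt b) = rt b) ∧
        ∀ b, ¬ ‖em (iw hi ι) (mm b)‖ < 1))
    (hst : ∀ b, ∀ σ ∈ (DD (κ b) : Set (GK i₀)), ∀ v : B → ℚ_[2], (∀ b', κ b' = κ b → v b' = 0) →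
      ∀ b', κ b' = κ b → R σ v b' = 0)
    (hstr : ∀ b, ∃ y : B → ℚ_[2], ∀ σ : H, (σ : GK i₀) ∈ (DD (κ b) : Set (GK i₀)) →
      ∀ b', κ b' = κ b → c σ b' = (R σ y - y) b') :
    ∃ y, ∀ σ : H, c σ = R σ y - y := by
  obtain ⟨a, ha⟩ := hidx
  have hNf : N.FiniteIndex := ⟨by rw [ha]; positivity⟩
  have hHf : H.FiniteIndex := Subgroup.finiteIndex_of_le hNH
  have hHo : IsOpen (H : Set (GK i₀)) := Subgroup.isOpen_mono hNH hNo
  have : Fintype (GK i₀ ⧸ H) := Fintype.ofFinite _
  have htr : ∀ (ι₀ : QB →ₐ[ℚ] PadicAlgCl 2) (g : GK i₀), ∃ δ ∈ (DDs ι₀ : Subgroup (GK i₀)),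
      δ⁻¹ * g ∈ H := by
    intro ι₀ g
    obtain ⟨δ, h1, h2⟩ := trans hi hN ⟨a, ha⟩ hNo hur ι₀ g
    exact ⟨δ, h1, hNH h2⟩
  -- the correction at the places above `2`
  have hY : ∀ b, ∃ Y : GK i₀ ⧸ H → B → ℚ_[2], ∀ g ∈ (DD (κ b) : Set (GK i₀)), ∀ x, ∀ b',
      κ b' = κ b → TI R c g x b' = (R g (Y (g⁻¹ • x)) - Y x) b' := by
    intro b
    obtain ⟨Y, hY⟩ := mackeyS hc (DDs (κ b)) (htr (κ b)) {b' | κ b' = κ b} (hst b) (hstr b)
    exact ⟨Y, fun g hg x b' hb' => hY g hg x b' hb'⟩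
  have hY' : ∀ ι : QB →ₐ[ℚ] PadicAlgCl 2, ∃ Y : GK i₀ ⧸ H → B → ℚ_[2], ∀ b, κ b = ι →
      ∀ g ∈ (DD ι : Set (GK i₀)), ∀ x, TI R c g x b = (R g (Y (g⁻¹ • x)) - Y x) b := by
    intro ι
    by_cases h : ∃ b, κ b = ι
    · obtain ⟨b, rfl⟩ := h
      obtain ⟨Y, hY⟩ := hY b
      exact ⟨Y, fun b' hb' g hg x => hY g hg x b' hb'⟩
    · exact ⟨0, fun b hb => absurd ⟨b, hb⟩ h⟩
  choose Yι hYι using hY'
  set Y : GK i₀ ⧸ H → B → ℚ_[2] := fun x b => Yι (κ b) x b with hYdef
  have hYb : ∀ b, ∀ g ∈ (DD (κ b) : Set (GK i₀)), ∀ x,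
      TI R c g x b = (R g (Y (g⁻¹ • x)) - Y x) b := by
    intro b g hg x
    rw [hYι (κ b) b rfl g hg x]
    have h1 := hst b g hg (Y (g⁻¹ • x) - Yι (κ b) (g⁻¹ • x)) (fun b' hb' => by
      show Yι (κ b') (g⁻¹ • x) b' - Yι (κ b) (g⁻¹ • x) b' = 0
      rw [hb', sub_self]) b rfl
    rw [map_sub, Pi.sub_apply, sub_eq_zero] at h1
    rw [Pi.sub_apply, Pi.sub_apply, h1]
  -- the corrected cocycle
  set E : GK i₀ → (GK i₀ ⧸ H) → B → ℚ_[2] := fun g x => TI R c g x - (R g (Y (g⁻¹ • x)) - Y x)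
    with hE
  have hEmul : ∀ g g' x, E (g * g') x = E g x + R g (E g' (g⁻¹ • x)) := by
    intro g g' x
    simp only [hE]
    rw [TI_mul hc, Rmul, mul_inv_rev, mul_smul, map_sub, map_sub]
    abel
  have hEcont : ∀ x, Continuous fun g => E g x := by
    intro x
    have h1 := TI_cont (R := R) hHo hcc x
    have h2 : Continuous fun g : GK i₀ => R g (Y (g⁻¹ • x)) := by
      rw [continuous_iff_continuousAt]
      intro g₀
      have hopen : IsOpen {g : GK i₀ | g⁻¹ • x = g₀⁻¹ • x} := by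
        have e : {g : GK i₀ | g⁻¹ • x = g₀⁻¹ • x} =
            (fun g => (rr x)⁻¹ * g * rr (g₀⁻¹ • x)) ⁻¹' (H : Set (GK i₀)) := by
          ext g
          have := Pool.Agent.Z384.mem_iff g x (g₀⁻¹ • x)
          rw [Set.mem_ofPred_eq, Set.mem_preimage, SetLike.mem_coe, this]
          exact eq_comm
        rw [e]
        exact hHo.preimage ((continuous_const.mul continuous_id).mul continuous_const)
      have h3 : (fun g : GK i₀ => R g (Y (g₀⁻¹ • x))) =ᶠ[nhds g₀] fun g => R g (Y (g⁻¹ • x)) := by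
        filter_upwards [hopen.mem_nhds rfl] with g hg
        have hg' : g⁻¹ • x = g₀⁻¹ • x := hg
        rw [hg']
      exact ((vd.cont (Y (g₀⁻¹ • x))).continuousAt).congr h3
    exact h1.sub (h2.sub continuous_const)
  have hE2 : ∀ b, ∀ g ∈ (DD (κ b) : Set (GK i₀)), ∀ x, E g x b = 0 := by
    intro b g hg x
    simp only [hE]
    rw [Pi.sub_apply, hYb b g hg x, sub_self]
  -- the cocycle vanishes
  have hzero : ∀ g x, E g x = 0 := by
    by_contra hcon
    push Not at hcon
    obtain ⟨g₀, x₀, hg₀⟩ := hcon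
    -- the norm attains its maximum
    have hmaxx : ∀ x, ∃ g₁, ∀ g, ‖E g x‖ ≤ ‖E g₁ x‖ := by
      intro x
      obtain ⟨σ₁, -, h1⟩ := isCompact_univ.exists_isMaxOn (Set.univ_nonempty (α := GK i₀))
        (continuous_norm.comp (hEcont x)).continuousOn
      exact ⟨σ₁, fun σ => h1 (Set.mem_univ σ)⟩
    choose γ hγ using hmaxx
    obtain ⟨x₁, -, hx₁⟩ := Finset.exists_max_image (Finset.univ : Finset (GK i₀ ⧸ H))
      (fun x => ‖E (γ x) x‖) ⟨x₀, Finset.mem_univ _⟩
    set g₁ := γ x₁ with hg₁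
    have hmax : ∀ g x, ‖E g x‖ ≤ ‖E g₁ x₁‖ := fun g x =>
      (hγ x g).trans (hx₁ x (Finset.mem_univ _))
    have hpos : 0 < ‖E g₁ x₁‖ := (norm_pos_iff.2 hg₀).trans_le (hmax g₀ x₀)
    obtain ⟨b, hb⟩ : ∃ b, ‖E g₁ x₁ b‖ = ‖E g₁ x₁‖ := by
      by_contra hcon
      push Not at hcon
      have h2 : ‖E g₁ x₁‖ < ‖E g₁ x₁‖ := by
        rw [pi_norm_lt_iff hpos]
        intro i
        exact lt_of_le_of_ne (norm_le_pi_norm _ i) (hcon i)
      exact lt_irrefl _ h2
    set t : ℚ_[2] := E g₁ x₁ b with ht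
    have ht0 : t ≠ 0 := by
      intro h0
      rw [← hb, h0, norm_zero] at hpos
      exact lt_irrefl _ hpos
    set E' : GK i₀ → (GK i₀ ⧸ H) → B → ℚ_[2] := fun g x => t⁻¹ • E g x with hE'
    have hE'1 : ∀ g x, ‖E' g x‖ ≤ 1 := by
      intro g x
      simp only [hE']
      rw [norm_smul, norm_inv, hb, inv_mul_le_iff₀ hpos, mul_one]
      exact hmax g x
    have hE'mul : ∀ g g' x, E' (g * g') x = E' g x + R g (E' g' (g⁻¹ • x)) := by
      intro g g' x
      simp only [hE']
      rw [hEmul, smul_add, map_smul]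
    have hE'cont : ∀ x, Continuous fun g => E' g x := fun x => (hEcont x).const_smul t⁻¹
    have hE'b : ∀ g x, ‖E' g x b‖ ≤ 1 := fun g x => (norm_le_pi_norm _ b).trans (hE'1 g x)
    -- the reduction modulo two
    set β : GK i₀ → (GK i₀ ⧸ H) → ZMod 2 := fun g x => m1 (E' g x b) with hβ
    have hβlc : IsLocallyConstant β := by
      rw [IsLocallyConstant.iff_exists_open]
      intro σ
      refine ⟨⋂ x, (fun g => E' g x) ⁻¹' Metric.ball (E' σ x) 1,
        isOpen_iInter_of_finite fun x => Metric.isOpen_ball.preimage (hE'cont x),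
        Set.mem_iInter.2 fun x => Metric.mem_ball_self one_pos, fun τ hτ => ?_⟩
      funext x
      apply m1_congr
      have h2 : ‖E' τ x - E' σ x‖ < 1 := by
        rw [← dist_eq_norm]
        exact Set.mem_iInter.1 hτ x
      exact (norm_le_pi_norm (E' τ x - E' σ x) b).trans_lt h2
    let P : GK i₀ →* ((GK i₀ ⧸ H → ZMod 2) ≃ₗ[ZMod 2] (GK i₀ ⧸ H → ZMod 2)) :=
      { toFun := fun g => LinearEquiv.funCongrLeft (ZMod 2) (ZMod 2) (MulAction.toPerm g⁻¹)
        map_one' := by
          ext v x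
          show v ((1 : GK i₀)⁻¹ • x) = v x
          rw [inv_one, one_smul]
        map_mul' := fun g g' => by
          ext v x
          show v ((g * g')⁻¹ • x) = v (g'⁻¹ • (g⁻¹ • x))
          rw [mul_inv_rev, mul_smul] }
    have hPa : ∀ g v x, P g v x = v (g⁻¹ • x) := fun _ _ _ => rfl
    have hP : ∀ σ, ∃ k, (P σ) ^ 2 ^ k = 1 := by
      intro σ
      refine ⟨a, ?_⟩
      rw [← map_pow]
      have h1 : σ ^ 2 ^ a ∈ N := by
        rw [← ha]
        exact Subgroup.pow_index_mem N σ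
      apply LinearEquiv.ext
      intro v
      funext x
      rw [hPa, smul_of_normal hN hNH h1]
      rfl
    have hβc : ∀ σ τ, β (σ * τ) = β σ + P σ (β τ) := by
      intro σ τ
      funext x
      show m1 (E' (σ * τ) x b) = m1 (E' σ x b) + m1 (E' τ (σ⁻¹ • x) b)
      rw [← m1_add (hE'b _ _) (hE'b _ _)]
      apply m1_congr
      have h1 := vd.tr hi σ (E' τ (σ⁻¹ • x))
      have h2 := hE'1 τ (σ⁻¹ • x)
      have h3 := norm_le_pi_norm (R σ (E' τ (σ⁻¹ • x)) - E' τ (σ⁻¹ • x)) b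
      rw [hE'mul, Pi.add_apply]
      have e : E' σ x b + R σ (E' τ (σ⁻¹ • x)) b - (E' σ x b + E' τ (σ⁻¹ • x) b) =
          (R σ (E' τ (σ⁻¹ • x)) - E' τ (σ⁻¹ • x)) b := by
        rw [Pi.sub_apply]
        ring
      rw [e]
      linarith
    -- the local conditions
    have hNx : ∀ σ ∈ N, ∀ x : GK i₀ ⧸ H, σ⁻¹ • x = x := fun σ hσ x => smul_of_normal hN hNH hσ x
    have hcob : ∀ (p : ℕ) [Fact p.Prime] (ι : QB →ₐ[ℚ] PadicAlgCl p), p ≠ 2 → ∀ x,
        ∃ w : B → ℚ_[2], ∀ σ ∈ (II ι : Set (GK i₀)), E' σ x = R σ w - w := by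
      intro p _ ι hp x
      obtain ⟨y, hy⟩ := hodd p (ι.comp (gh (rr x))) hp
      refine ⟨t⁻¹ • (R (rr x) y - Y x), fun σ hσ => ?_⟩
      have hσN := hur p ι hp σ hσ
      have h1 := hNx σ hσN x
      have h2 : (kk σ x : GK i₀) = (rr x)⁻¹ * σ * rr x := by rw [kk_val, h1]
      have h3 := hy (kk σ x) (by rw [h2]; exact II_conj hσ (rr x))
      simp only [hE', hE]
      unfold TI
      rw [h3, h1, h2, map_smul, ← smul_sub]
      congr 1
      rw [map_sub, map_sub, ← Rmul, ← Rmul]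
      have e : rr x * ((rr x)⁻¹ * σ * rr x) = σ * rr x := by group
      rw [e]
      abel
    have hmain : ∀ σ, β σ = 0 := by
      refine dev2 P hP (fun h =>
        (∀ (p : ℕ) [Fact p.Prime] (ι : QB →ₐ[ℚ] PadicAlgCl p), p ≠ 2 →
          ¬ ‖em (iw hi ι) (mm b)‖ < 1 → ∀ σ ∈ (II ι : Set (GK i₀)), h σ = 0) ∧
        (∀ (p : ℕ) [Fact p.Prime] (ι : QB →ₐ[ℚ] PadicAlgCl p), p ≠ 2 →
          ‖em (iw hi ι) (mm b)‖ < 1 → Dich h (rt b) (DD ι)) ∧
        ∀ σ ∈ (DD (κ b) : Set (GK i₀)), h σ = 0) ?_ β hβlc hβc ?_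
      · rintro h hlc hadd ⟨h1, h2, h3⟩
        have h4 := core hi hq hinj h8 hind (hm b) (vd.hr b) (hϖ b) (hκ b)
          (⟨hlc, hadd, h1, h2, Or.inl h3⟩ : LC hi (mm b) (rt b) (κ b) h)
        rcases h4 with h4 | h4
        · exact h4
        · exfalso
          obtain ⟨σ, hσ, h5⟩ := hmove b
          have h6 := (h4 σ).1 (h3 σ hσ)
          rw [h5] at h6
          exact ne_neg' (vd.rt0 hi b) h6.symm
      · intro W hW l
        refine ⟨?_, ?_, ?_⟩
        · -- unramified places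
          intro p _ ι hp hu σ hσ
          have h0 : β σ = 0 := by
            funext x
            show m1 (E' σ x b) = 0
            rw [m1_zero]
            obtain ⟨w, hw⟩ := hcob p ι hp x
            rcases hpl p ι hp with ⟨h, -⟩ | ⟨⟨F, hF, hFN, hFb⟩, hI, -⟩
            · have h1 : σ (rt b) = rt b := by
                obtain ⟨τ, hτ, hin⟩ := hσ
                have h1 : (ι (rt b)) ^ 2 = em (iw hi ι) (mm b) := by
                  rw [← map_pow, vd.hr b, ι_em]
                have h2 : τ (ι (rt b)) = ι (rt b) :=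
                  fix_of_unit (iw hi ι) hp h1 hu hin hτ.fix
                apply ι.injective
                show ι (σ (rt b)) = ι (rt b)
                rw [← hτ, h2]
              rcases h σ hσ with ⟨h2, -⟩ | ⟨-, h2⟩
              · rw [hw σ hσ, h2, sub_self, Pi.zero_apply, norm_zero]
                norm_num
              · exfalso
                rw [h2 b] at h1
                exact ne_neg' (vd.rt0 hi b) h1.symm
            · have h1 := vmult (G := N) (R := res R N) (c := fun σ : N => E' σ x)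
                ⟨(hE'cont x).comp continuous_subtype_val, fun σ τ => by
                  show E' ((σ : GK i₀) * τ) x = _
                  rw [hE'mul, hNx σ σ.2]
                  rfl⟩ (fun σ => hE'1 σ x) (I := {σ : N | (σ : GK i₀) ∈ (II ι : Set (GK i₀))})
                ⟨w, fun σ hσ => hw σ hσ⟩ (F := ⟨F, hFN⟩) (vd.mv hi hFb)
                (fun σ hσ => conj_mem hσ hF) (fun σ hσ v => by
                  have hv := norm_nonneg v
                  rw [pi_norm_le_iff_of_nonneg (by linarith)]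
                  intro b
                  rw [Pi.sub_apply]
                  exact vd.one σ b (hI σ hσ b) v) ⟨σ, hur p ι hp σ hσ⟩ hσ
              exact (norm_le_pi_norm (E' σ x) b).trans_lt h1
          have h1 : (⟨β σ, hW σ⟩ : W) = 0 := Subtype.ext h0
          show l ⟨β σ, hW σ⟩ = 0
          rw [h1, map_zero]
        · -- the prime divisors of `m`
          intro p _ ι hp hu
          rcases hpl p ι hp with ⟨h, hsp⟩ | ⟨-, -, hu'⟩
          swap
          · exact absurd hu (hu' b)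
          have hDN := hsp ⟨b, hu⟩
          obtain ⟨σ₀, h0, h2⟩ : ∃ σ ∈ (II ι : Set (GK i₀)), σ (rt b) = -rt b := by
            obtain ⟨i, hqi⟩ : ∃ i, ‖em (iw hi ι) (q i)‖ < 1 := by
              by_contra hcon
              push Not at hcon
              have h1 : ∀ i, ‖em (iw hi ι) (q i)‖ = 1 :=
                fun i => eq_one_of_not_lt _ (not_lt.2 (hcon i))
              have h2 : ‖em (iw hi ι) (∏ i, q i)‖ = 1 := by
                rw [map_prod, norm_prod]
                exact Finset.prod_eq_one fun i _ => h1 i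
              have h3 : ‖em (iw hi ι) (mm b)‖ = 1 := by
                rcases hm b with h | h
                · rw [h, h2]
                · rw [h, map_neg, norm_neg, h2]
              rw [h3] at hu
              exact lt_irrefl _ hu
            obtain ⟨m1, hm1, hm1'⟩ : ∃ m1, mm b = q i * m1 ∧ ¬ q i ∣ m1 := by
              have h1 := Finset.mul_prod_erase Finset.univ q (Finset.mem_univ i)
              have h2 := nd_prod hq hinj (Finset.notMem_erase i Finset.univ)
              rcases hm b with h | h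
              · exact ⟨_, by rw [h, ← h1], h2⟩
              · refine ⟨-∏ k ∈ Finset.univ.erase i, q k, by rw [h, ← h1]; ring, ?_⟩
                rwa [dvd_neg]
            by_contra hcon
            push Not at hcon
            refine no_simple (iw hi ι) (hq i).prime hqi hm1' (s := ι (rt b)) ?_ ?_
            · rw [← map_pow, vd.hr b, ι_em, hm1]
            · intro τ hin hτ
              refine fix_I (fun σ hσ => ?_) τ hin hτ
              rcases rt_or hi (vd.hr b) σ with h | h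
              · exact h
              · exact absurd h (hcon σ hσ)
          rcases h σ₀ h0 with ⟨-, h3⟩ | ⟨h3, h4⟩
          · exfalso
            rw [h3 b] at h2
            exact ne_neg' (vd.rt0 hi b) h2
          -- the values on the decomposition group
          have hval : ∀ x, ∃ w : B → ℚ_[2], ‖w‖ ≤ 2 ∧ ∀ σ ∈ (DD ι : Set (GK i₀)),
              E' σ x = R σ w - w := by
            intro x
            obtain ⟨w, hw⟩ := hcob p ι hp x
            obtain ⟨w', hw'⟩ := vdec_of_inert (G := N) (R := res R N) (c := fun σ : N => E' σ x)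
              ⟨(hE'cont x).comp continuous_subtype_val, fun σ τ => by
                show E' ((σ : GK i₀) * τ) x = _
                rw [hE'mul, hNx σ σ.2]
                rfl⟩ (I := {σ : N | (σ : GK i₀) ∈ (II ι : Set (GK i₀))})
              (D := {σ : N | (σ : GK i₀) ∈ (DD ι : Set (GK i₀))}) ⟨w, fun σ hσ => hw σ hσ⟩
              (σ₀ := ⟨σ₀, hur p ι hp σ₀ h0⟩) h0 h3 (fun τ hτ => conj_mem h0 hτ)
            refine ⟨w', ?_, fun σ hσ => hw' ⟨σ, hDN σ hσ⟩ hσ⟩
            have h5 : E' σ₀ x = -w' - w' := by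
              have h6 := hw' ⟨σ₀, hur p ι hp σ₀ h0⟩ (II_sub h0)
              have h7 : E' σ₀ x = R σ₀ w' - w' := h6
              rw [h7, h3]
            have h6 : ‖(2 : ℚ_[2]) • w'‖ ≤ 1 := by
              have e : (2 : ℚ_[2]) • w' = -(E' σ₀ x) := by rw [h5, two_smul]; abel
              rw [e, norm_neg]
              exact hE'1 σ₀ x
            rw [norm_smul, norm_two'] at h6
            linarith
          choose w hw2 hwD using hval
          set T : (GK i₀ ⧸ H) → ZMod 2 := fun x => m1 (2 * w x b) with hT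
          have hT1 : ∀ σ ∈ (DD ι : Set (GK i₀)), σ (rt b) = rt b → β σ = 0 := by
            intro σ hσ h5
            funext x
            show m1 (E' σ x b) = 0
            rw [m1_zero, hwD x σ hσ, Pi.sub_apply]
            have := vd.one σ b h5 (w x)
            have := hw2 x
            linarith
          have hT2 : ∀ σ ∈ (DD ι : Set (GK i₀)), σ (rt b) = -rt b → β σ = T := by
            intro σ hσ h5
            funext x
            show m1 (E' σ x b) = m1 (2 * w x b)
            have h6 := vd.neg σ b h5 (w x)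
            have h7 := hw2 x
            have h8' : m1 (E' σ x b) = m1 (-(2 * w x b)) := by
              apply m1_congr
              rw [hwD x σ hσ, Pi.sub_apply]
              have e : R σ (w x) b - w x b - -(2 * w x b) = R σ (w x) b + w x b := by ring
              rw [e]
              linarith
            rw [h8']
            unfold m1
            rw [norm_neg]
          have hTW : T ∈ W := by
            have := hW σ₀
            rwa [hT2 σ₀ (II_sub h0) h2] at this
          by_cases h5 : l ⟨T, hTW⟩ = 0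
          · left
            intro σ hσ
            rcases rt_or hi (vd.hr b) σ with h6 | h6
            · have h7 : (⟨β σ, hW σ⟩ : W) = 0 := Subtype.ext (hT1 σ hσ h6)
              show l ⟨β σ, hW σ⟩ = 0
              rw [h7, map_zero]
            · have h7 : (⟨β σ, hW σ⟩ : W) = ⟨T, hTW⟩ := Subtype.ext (hT2 σ hσ h6)
              show l ⟨β σ, hW σ⟩ = 0
              rw [h7, h5]
          · right
            intro σ hσ
            rcases rt_or hi (vd.hr b) σ with h6 | h6
            · have h7 : (⟨β σ, hW σ⟩ : W) = 0 := Subtype.ext (hT1 σ hσ h6)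
              show l ⟨β σ, hW σ⟩ = 0 ↔ _
              rw [h7, map_zero]
              exact ⟨fun _ => h6, fun _ => rfl⟩
            · have h7 : (⟨β σ, hW σ⟩ : W) = ⟨T, hTW⟩ := Subtype.ext (hT2 σ hσ h6)
              show l ⟨β σ, hW σ⟩ = 0 ↔ _
              rw [h7]
              constructor
              · intro h8; exact absurd h8 h5
              · intro h8
                rw [h6] at h8
                exact absurd h8.symm (ne_neg' (vd.rt0 hi b))
        · -- the place above `2`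
          intro σ hσ
          have h0 : β σ = 0 := by
            funext x
            show m1 (t⁻¹ * E σ x b) = 0
            rw [hE2 b σ hσ x, mul_zero, m1_zero, norm_zero]
            norm_num
          have h1 : (⟨β σ, hW σ⟩ : W) = 0 := Subtype.ext h0
          show l ⟨β σ, hW σ⟩ = 0
          rw [h1, map_zero]
    have h1 := congrFun (hmain g₁) x₁
    have h2 : β g₁ x₁ = 1 := by
      show m1 (t⁻¹ * E g₁ x₁ b) = 1
      rw [← ht, inv_mul_cancel₀ ht0]
      unfold m1
      rw [norm_one, if_neg (lt_irrefl _)]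
    rw [h2] at h1
    exact one_ne_zero h1
  refine of_TI (Y := Y) fun g x => ?_
  have h := hzero g x
  simp only [hE] at h
  exact sub_eq_zero.1 h

end Pool.Agent.J6H2.TW
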