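import Pool.Agent.J6H2.TW.VT

/-!
# The odd places of the fields `K`
-/

set_option autoImplicit false
set_option linter.unusedSectionVars false

namespace Pool.Agent.J6H2.TW

open Pool.Agent.R384
open Pool.Agent.Y715.Red Pool.Agent.Y715.Nr Pool.Agent.W237.RK
open Pool.Agent.Y715.Gi (QB KK GK i₀_mem gk_fix)
open Pool.Agent.Y715.Df (Cmp exists_cmp)

open scoped Classical

/-- two embeddings differ by an automorphism -/
theorem exists_aut {p : ℕ} [Fact p.Prime] (ι ι' : QB →ₐ[ℚ] PadicAlgCl p) :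
    ∃ g : QB ≃ₐ[ℚ] QB, ∀ x, ι' x = ι (g x) := by
  have hmem : ∀ x, ∃ z, ι z = ι' x := by
    intro x
    set P := minpoly ℚ x with hP
    have hP0 : P ≠ 0 := minpoly.ne_zero (Algebra.IsIntegral.isIntegral x)
    have h1 : Polynomial.aeval (ι' x) P = 0 := by
      rw [Polynomial.aeval_algHom_apply, hP, minpoly.aeval, map_zero]
    have hs : (P.map (algebraMap ℚ QB)).Splits := IsAlgClosed.splits _
    have h2 := hs.roots_map (ι : QB →+* PadicAlgCl p)
    have h3 : (P.map (algebraMap ℚ QB)).map (ι : QB →+* PadicAlgCl p) =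
        P.map (algebraMap ℚ (PadicAlgCl p)) := by
      rw [Polynomial.map_map]
      congr 1
      exact ι.comp_algebraMap
    rw [h3] at h2
    have h4 : ι' x ∈ (P.map (algebraMap ℚ (PadicAlgCl p))).roots := by
      rw [Polynomial.mem_roots (Polynomial.map_ne_zero hP0), Polynomial.IsRoot.def,
        Polynomial.eval_map_algebraMap]
      exact h1
    rw [h2, Multiset.mem_map] at h4
    obtain ⟨z, -, hz⟩ := h4
    exact ⟨z, hz⟩
  choose f hf using hmem
  have hinj : ∀ x y, ι x = ι y → x = y := fun x y h => ι.injective h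
  let F : QB →ₐ[ℚ] QB :=
    { toFun := f
      map_one' := hinj _ _ (by rw [hf, map_one, map_one])
      map_mul' := fun x y => hinj _ _ (by rw [hf, map_mul, map_mul, hf, hf])
      map_zero' := hinj _ _ (by rw [hf, map_zero, map_zero])
      map_add' := fun x y => hinj _ _ (by rw [hf, map_add, map_add, hf, hf])
      commutes' := fun r => hinj _ _ (by rw [hf, AlgHom.commutes, AlgHom.commutes]) }
  have hF : Function.Bijective F := Algebra.IsAlgebraic.algHom_bijective F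
  exact ⟨AlgEquiv.ofBijective F hF, fun x => (hf x).symm⟩

/-- automorphisms which fix `i₀` -/
theorem mk_gk {i₀ : QB} (g : QB ≃ₐ[ℚ] QB) (h : g i₀ = i₀) : ∃ σ : GK i₀, ∀ x, σ x = g x := by
  have hfix : ∀ x ∈ KK i₀, g x = x := by
    intro x hx
    have hint : IsAlgebraic ℚ i₀ := Algebra.IsAlgebraic.isAlgebraic i₀
    have h1 : x ∈ Algebra.adjoin ℚ {i₀} := by
      rw [← IntermediateField.adjoin_simple_toSubalgebra_of_isAlgebraic hint]
      exact hx
    clear hx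
    induction h1 using Algebra.adjoin_induction with
    | mem y hy =>
      rw [Set.mem_singleton_iff] at hy
      rw [hy, h]
    | algebraMap r => exact g.commutes r
    | add y z _ _ ihy ihz => rw [map_add, ihy, ihz]
    | mul y z _ _ ihy ihz => rw [map_mul, ihy, ihz]
  exact ⟨{ (g : QB ≃+* QB) with commutes' := fun r => hfix r r.2 }, fun x => rfl⟩

/-- finitely many embeddings represent all places -/
theorem exists_reps {i₀ : QB} (hi : i₀ ^ 2 = i₀ - 2) {H : Subgroup (GK i₀)}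
    (hH : IsOpen (H : Set (GK i₀))) (p : ℕ) [Fact p.Prime] :
    ∃ (r : ℕ) (ι : Fin r → (QB →ₐ[ℚ] PadicAlgCl p)), ∀ ι' : QB →ₐ[ℚ] PadicAlgCl p,
      ∃ k, ∃ g ∈ H, ∀ x, ι' x = ι k (g x) := by
  have hf : Finite (GK i₀ ⧸ H) := Subgroup.quotient_finite_of_isOpen H hH
  obtain ⟨ι₀⟩ : Nonempty (QB →ₐ[ℚ] PadicAlgCl p) := ⟨IsAlgClosed.lift⟩
  -- an automorphism which moves `i₀`
  obtain ⟨c, hc⟩ : ∃ c : QB ≃ₐ[ℚ] QB, ∀ g : QB ≃ₐ[ℚ] QB, g i₀ = i₀ ∨ c (g i₀) = i₀ := by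
    have hor : ∀ g : QB ≃ₐ[ℚ] QB, g i₀ = i₀ ∨ g i₀ = 1 - i₀ := by
      intro g
      have h1 : (g i₀) ^ 2 = g i₀ - 2 := by
        have := congrArg g hi
        rwa [map_pow, map_sub, map_ofNat] at this
      have h2 : (g i₀ - i₀) * (g i₀ - (1 - i₀)) = 0 := by linear_combination h1 - hi
      rcases mul_eq_zero.1 h2 with h3 | h3
      · exact Or.inl (sub_eq_zero.1 h3)
      · exact Or.inr (sub_eq_zero.1 h3)
    by_cases h : ∃ c : QB ≃ₐ[ℚ] QB, c i₀ = 1 - i₀
    · obtain ⟨c, hc⟩ := h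
      refine ⟨c, fun g => ?_⟩
      rcases hor g with h3 | h3
      · exact Or.inl h3
      · right
        rw [h3, map_sub, map_one, hc]
        ring
    · refine ⟨1, fun g => ?_⟩
      rcases hor g with h3 | h3
      · exact Or.inl h3
      · exact absurd ⟨g, h3⟩ h
  let T : Type := Bool × (GK i₀ ⧸ H)
  have hT : Finite T := inferInstanceAs (Finite (Bool × (GK i₀ ⧸ H)))
  obtain ⟨r, ⟨eq⟩⟩ := Finite.exists_equiv_fin T
  let ιT : T → (QB →ₐ[ℚ] PadicAlgCl p) := fun s =>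
    (ι₀.comp (if s.1 then (AlgHom.id ℚ QB) else (c⁻¹ : QB ≃ₐ[ℚ] QB).toAlgHom)).comp
      ((s.2.out : GK i₀).toAlgHom.restrictScalars ℚ)
  refine ⟨r, fun k => ιT (eq.symm k), fun ι' => ?_⟩
  obtain ⟨g, hg⟩ := exists_aut ι₀ ι'
  have key : ∀ (b : Bool) (σ : GK i₀), (∀ x, g x = (if b then (AlgHom.id ℚ QB)
      else (c⁻¹ : QB ≃ₐ[ℚ] QB).toAlgHom) (σ x)) →
      ∃ k, ∃ g ∈ H, ∀ x, ι' x = ιT (eq.symm k) (g x) := by
    intro b σ hσ
    refine ⟨eq (b, (σ : GK i₀ ⧸ H)), ((σ : GK i₀ ⧸ H).out)⁻¹ * σ, ?_, fun x => ?_⟩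
    · rw [← QuotientGroup.eq]
      exact Quotient.out_eq' _
    · rw [eq.symm_apply_apply, hg, hσ]
      show ι₀ _ = ι₀ ((if b then (AlgHom.id ℚ QB) else (c⁻¹ : QB ≃ₐ[ℚ] QB).toAlgHom)
        ((σ : GK i₀ ⧸ H).out ((((σ : GK i₀ ⧸ H).out)⁻¹ * σ) x)))
      rw [← AlgEquiv.mul_apply, mul_inv_cancel_left]
  rcases hc g with h | h
  · obtain ⟨σ, hσ⟩ := mk_gk g h
    exact key true σ fun x => by simp [hσ]
  · obtain ⟨σ, hσ⟩ := mk_gk (c * g) h
    refine key false σ fun x => ?_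
    rw [hσ]
    simp

end Pool.Agent.J6H2.TW
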