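import Pool.Agent.R384.Z.Ind
import Pool.Agent.R384.Vec

/-!
# Induction of cocycles with values in a representation of the whole group
-/

set_option autoImplicit false
set_option linter.unusedSectionVars false

namespace Pool.Agent.J6H2.TW

open Pool.Agent.Z384 (rr rr_mk kk kk_val kk_mul mem_iff ez ez_of ez_not ez_kk ez_cont)

open scoped Classical

variable {B : Type} [Fintype B]
variable {G : Type} [Group G] {H : Subgroup G}

/-- the induced cocycle -/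
noncomputable def TI (R : Representation ℚ_[2] G (B → ℚ_[2])) (c : H → B → ℚ_[2]) (g : G)
    (x : G ⧸ H) : B → ℚ_[2] := R (rr x) (c (kk g x))

variable {R : Representation ℚ_[2] G (B → ℚ_[2])} {c : H → B → ℚ_[2]}

lemma Rone (v : B → ℚ_[2]) : R 1 v = v := by rw [map_one]; rfl

lemma Rmul (σ τ : G) (v : B → ℚ_[2]) : R (σ * τ) v = R σ (R τ v) := by rw [map_mul]; rfl

lemma TI_mul (hc : ∀ σ τ : H, c (σ * τ) = c σ + R σ (c τ)) (g g' : G) (x : G ⧸ H) :
    TI R c (g * g') x = TI R c g x + R g (TI R c g' (g⁻¹ • x)) := by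
  unfold TI
  rw [kk_mul, hc, map_add, ← Rmul, ← Rmul]
  congr 2
  rw [kk_val]
  group

lemma TI_one (hc : ∀ σ τ : H, c (σ * τ) = c σ + R σ (c τ)) (x : G ⧸ H) : TI R c 1 x = 0 := by
  have h := TI_mul hc 1 1 x
  rw [mul_one, inv_one, one_smul, Rone] at h
  exact left_eq_add.1 h

lemma coset_one {s : G} (x1 : G ⧸ H) (hx : x1 = ((1 : G) : G ⧸ H)) : s⁻¹ • x1 = x1 ↔ s ∈ H := by
  rw [hx]
  constructor
  · intro h
    have h1 : ((s⁻¹ * 1 : G) : G ⧸ H) = ((1 : G) : G ⧸ H) := h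
    have h2 := QuotientGroup.eq.1 h1
    simpa using h2
  · intro h
    show ((s⁻¹ * 1 : G) : G ⧸ H) = ((1 : G) : G ⧸ H)
    rw [QuotientGroup.eq]
    simpa using h

lemma rr_mem : rr (((1 : G) : G ⧸ H)) ∈ H := by
  have h1 : ((rr (((1 : G) : G ⧸ H)) : G) : G ⧸ H) = ((1 : G) : G ⧸ H) := rr_mk _
  have h2 := QuotientGroup.eq.1 h1
  rw [mul_one] at h2
  exact inv_mem_iff.1 h2

/-- back from the induced cocycle -/
theorem of_TI {Y : G ⧸ H → B → ℚ_[2]}
    (h : ∀ g x, TI R c g x = R g (Y (g⁻¹ • x)) - Y x) : ∃ y, ∀ σ : H, c σ = R σ y - y := by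
  set x1 : G ⧸ H := ((1 : G) : G ⧸ H) with hx1
  set r := rr x1 with hr
  have hrH : r ∈ H := rr_mem
  refine ⟨R r⁻¹ (Y x1), fun σ => ?_⟩
  set g : G := r * σ * r⁻¹ with hg
  have hgH : g ∈ H := H.mul_mem (H.mul_mem hrH σ.2) (H.inv_mem hrH)
  have hgx : g⁻¹ • x1 = x1 := (coset_one x1 hx1).2 hgH
  have hk : kk g x1 = σ := by
    apply Subtype.ext
    rw [kk_val, hgx, ← hr, hg]
    group
  have h1 := h g x1
  unfold TI at h1
  rw [hk, hgx, ← hr] at h1
  have h2 := congrArg (R r⁻¹) h1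
  rw [map_sub, ← Rmul, ← Rmul, inv_mul_cancel, Rone] at h2
  rw [h2, ← Rmul]
  congr 2
  rw [hg]
  group

/-- the value on a stabilizer -/
lemma TI_stab (hc : ∀ σ τ : H, c (σ * τ) = c σ + R σ (c τ)) (s : H) :
    TI R c s (((1 : G) : G ⧸ H)) = c s + (R s (c ⟨_, rr_mem⟩) - c ⟨_, rr_mem⟩) := by
  set x1 : G ⧸ H := ((1 : G) : G ⧸ H) with hx1
  set r' : H := ⟨rr x1, rr_mem⟩ with hr'
  have hsx : (s : G)⁻¹ • x1 = x1 := (coset_one x1 hx1).2 s.2
  have hk : kk (s : G) x1 = r'⁻¹ * (s * r') := by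
    apply Subtype.ext
    rw [kk_val, hsx]
    show (rr x1)⁻¹ * s * rr x1 = (rr x1)⁻¹ * (s * rr x1)
    group
  have h1 : c 1 = 0 := by
    have := hc 1 1
    rw [mul_one, show ((1 : H) : G) = 1 from rfl, Rone] at this
    exact left_eq_add.1 this
  have h2 : R r' (c r'⁻¹) = -c r' := by
    have := hc r' r'⁻¹
    rw [mul_inv_cancel, h1] at this
    exact eq_neg_of_add_eq_zero_right this.symm
  unfold TI
  have e : rr x1 = (r' : G) := rfl
  have e1 : (r' : G) * ((r'⁻¹ : H) : G) = 1 := by simp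
  have h3 : c (r'⁻¹ * (s * r')) = c r'⁻¹ + R (r'⁻¹ : H) (c s + R s (c r')) := by rw [hc, hc]
  rw [hk, h3, e, map_add, h2, ← Rmul, e1, Rone]
  abel

/-- the restriction of an induced cocycle to a subgroup which acts transitively on the cosets -/
theorem mackeyS (hc : ∀ σ τ : H, c (σ * τ) = c σ + R σ (c τ)) (D : Subgroup G)
    (hD : ∀ g : G, ∃ δ ∈ D, δ⁻¹ * g ∈ H) (S : Set B)
    (hst : ∀ σ ∈ D, ∀ v : B → ℚ_[2], (∀ b ∈ S, v b = 0) → ∀ b ∈ S, R σ v b = 0)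
    (h : ∃ y : B → ℚ_[2], ∀ σ : H, (σ : G) ∈ D → ∀ b ∈ S, c σ b = (R σ y - y) b) :
    ∃ Y : G ⧸ H → B → ℚ_[2], ∀ g ∈ D, ∀ x, ∀ b ∈ S,
      TI R c g x b = (R g (Y (g⁻¹ • x)) - Y x) b := by
  obtain ⟨y, hy⟩ := h
  set x1 : G ⧸ H := ((1 : G) : G ⧸ H) with hx1
  have hδ : ∀ x : G ⧸ H, ∃ δ ∈ D, δ⁻¹ • x = x1 := by
    intro x
    obtain ⟨δ, h1, h2⟩ := hD (rr x)
    refine ⟨δ, h1, ?_⟩
    conv_lhs => rw [← rr_mk x]
    show ((δ⁻¹ * rr x : G) : G ⧸ H) = _
    rw [hx1, QuotientGroup.eq, mul_one]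
    exact inv_mem h2
  choose δ hδD hδx using hδ
  set r' : H := ⟨rr x1, rr_mem⟩ with hr'
  set Y0 : B → ℚ_[2] := y + c r' with hY0
  refine ⟨fun x => R (δ x) Y0 - TI R c (δ x) x, fun g hg x b hb => ?_⟩
  set z := g⁻¹ • x with hz
  set s : G := (δ x)⁻¹ * g * δ z with hs
  have hsD : s ∈ D := D.mul_mem (D.mul_mem (D.inv_mem (hδD x)) hg) (hδD z)
  have hsH : s ∈ H := by
    rw [← coset_one x1 hx1]
    have e : s⁻¹ = (δ z)⁻¹ * g⁻¹ * δ x := by rw [hs]; group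
    have h3 : δ x • x1 = x := by rw [← hδx x, smul_inv_smul]
    rw [e, mul_smul, mul_smul, h3, ← hz, hδx]
  have e1 : g * δ z = δ x * s := by rw [hs]; group
  have h1 := TI_mul hc g (δ z) x
  have h2 := TI_mul hc (δ x) s x
  rw [← e1, h1, hδx] at h2
  -- the value on the stabilizer
  have h3 : ∀ b ∈ S, TI R c s x1 b = (R s Y0 - Y0) b := by
    intro b hb
    have h4 := TI_stab hc ⟨s, hsH⟩
    have h5 := hy ⟨s, hsH⟩ hsD b hb
    have h6 : TI R c s x1 = c ⟨s, hsH⟩ + (R s (c r') - c r') := h4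
    rw [h6, Pi.add_apply, h5, hY0]
    simp only [map_add, Pi.add_apply, Pi.sub_apply]
    ring
  have h7 := hst (δ x) (hδD x) (TI R c s x1 - (R s Y0 - Y0)) (fun b hb => by
    rw [Pi.sub_apply, h3 b hb, sub_self]) b hb
  have h8 : R g (R (δ z) Y0) = R (δ x) (R s Y0) := by rw [← Rmul, ← Rmul, e1]
  rw [← hz] at h2
  have h9 := congrFun h2 b
  rw [map_sub, map_sub] at h7
  simp only [Pi.sub_apply, Pi.add_apply, map_sub] at h7 h9 ⊢
  rw [h8]
  linear_combination h9 + h7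

variable [TopologicalSpace G] [IsTopologicalGroup G] [Fintype (G ⧸ H)]

lemma TI_cont (hH : IsOpen (H : Set G)) (hc : Continuous c) (x : G ⧸ H) :
    Continuous fun g => TI R c g x := by
  have h1 : (fun g => c (kk g x)) = fun g => ∑ y : G ⧸ H, ez c ((rr x)⁻¹ * g * rr y) := by
    funext g
    rw [Finset.sum_eq_single (g⁻¹ • x)]
    · rw [ez_kk]
    · intro z _ hz
      exact ez_not c (fun h1 => hz ((mem_iff g x z).1 h1))
    · intro h
      exact absurd (Finset.mem_univ _) h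
  have h2 : Continuous fun g => c (kk g x) := by
    rw [h1]
    refine continuous_finsetSum _ fun y _ => ?_
    exact (ez_cont hH hc).comp ((continuous_const.mul continuous_id).mul continuous_const)
  have h3 : Continuous fun v : B → ℚ_[2] => R (rr x) v :=
    LinearMap.continuous_of_finiteDimensional (R (rr x) : (B → ℚ_[2]) →ₗ[ℚ_[2]] (B → ℚ_[2]))
  exact h3.comp h2

end Pool.Agent.J6H2.TW
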